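import Pool.Agent.H576R3.PR.Code

set_option autoImplicit false

open scoped Topology
open Filter Finset

namespace Pool.Agent.H576R3.PR

variable {X : Type*} [MetricSpace X]

/-- `c` is an `ε`-chain of length `n` from `a` to `b` -/
def Ch (g : X → X) (ε : ℝ) (a b : X) (n : ℕ) (c : ℕ → X) : Prop :=
  c 0 = a ∧ c n = b ∧ ∀ i < n, dist (g (c i)) (c (i + 1)) < ε

lemma Ch.cat {g : X → X} {ε : ℝ} {a b d : X} {n n' : ℕ} {c c' : ℕ → X} (h : Ch g ε a b n c)
    (h' : Ch g ε b d n' c') : ∃ c'', Ch g ε a d (n + n') c'' ∧ (∀ i ≤ n, c'' i = c i) ∧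
      ∀ i, c'' (n + i) = c' i := by
  have e1 : ∀ i ≤ n, (fun i => if i < n then c i else c' (i - n)) i = c i := by
    intro i hi
    rcases Nat.lt_or_ge i n with h1 | h1
    · simp [h1]
    · obtain rfl : i = n := by omega
      simp [h'.1, h.2.1]
  have e2 : ∀ i, (fun i => if i < n then c i else c' (i - n)) (n + i) = c' i := by
    intro i
    simp
  refine ⟨fun i => if i < n then c i else c' (i - n), ⟨?_, ?_, ?_⟩, e1, e2⟩
  · rw [e1 0 (Nat.zero_le _), h.1]
  · rw [e2, h'.2.1]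
  · intro i hi
    rcases Nat.lt_or_ge i n with h1 | h1
    · rw [e1 i h1.le, e1 (i + 1) h1]
      exact h.2.2 i h1
    · obtain ⟨l, rfl⟩ := Nat.exists_eq_add_of_le h1
      rw [e2 l, add_assoc, e2 (l + 1)]
      exact h'.2.2 l (by omega)

lemma ch_orbit (g : X → X) {ε : ℝ} (hε : 0 < ε) (a : X) (n : ℕ) :
    Ch g ε a (g^[n] a) n (fun i => g^[i] a) := by
  refine ⟨rfl, rfl, fun i _ => ?_⟩
  simp only [Function.iterate_succ_apply', dist_self]
  exact hε

/-- the properties of the pseudo-orbit coded by `j` in one block -/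
structure IsBlock (g : X → X) (ε : ℝ) (star : X → X) (x : X) (M q j : ℕ) (c : ℕ → X) : Prop where
  ch : Ch g ε x x (2 * M * q + M) c
  left : ∀ i ≤ 2 * M * j, c i = g^[i] x
  mid : c (2 * M * j + M) = star (g^[2 * M * j + M] x)
  right : ∀ i, 2 * M * (j + 1) ≤ i → i ≤ 2 * M * q → c i = g^[i] x

lemma exists_block (g : X → X) {ε : ℝ} (hε : 0 < ε) (star : X → X) (x : X) (M q j : ℕ)
    (hj : j < q) (hM : ∀ a b, ∃ c, Ch g ε a b M c) : ∃ c, IsBlock g ε star x M q j c := by
  obtain ⟨c5, h5⟩ := hM (g^[2 * M * q] x) x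
  obtain ⟨c3, h3⟩ := hM (star (g^[2 * M * j + M] x)) (g^[2 * M * (j + 1)] x)
  obtain ⟨c2, h2⟩ := hM (g^[2 * M * j] x) (star (g^[2 * M * j + M] x))
  obtain ⟨n, hn⟩ : ∃ n, q = j + 1 + n := ⟨q - (j + 1), by omega⟩
  have h1 := ch_orbit g hε x (2 * M * j)
  have h4 := ch_orbit g hε (g^[2 * M * (j + 1)] x) (2 * M * n)
  have e4 : g^[2 * M * n] (g^[2 * M * (j + 1)] x) = g^[2 * M * q] x := by
    rw [← Function.iterate_add_apply, hn]
    congr 2
    ring
  rw [e4] at h4
  obtain ⟨c45, h45, h45a, -⟩ := h4.cat h5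
  obtain ⟨c345, h345, -, h345b⟩ := h3.cat h45
  obtain ⟨c2345, h2345, h2345a, h2345b⟩ := h2.cat h345
  obtain ⟨c, hc, hca, hcb⟩ := h1.cat h2345
  refine ⟨c, ⟨?_, ?_, ?_, ?_⟩⟩
  · convert hc using 1
    rw [hn]
    ring
  · exact hca
  · rw [hcb, h2345a M le_rfl, h2.2.1]
  · intro i hi1 hi2
    obtain ⟨l, rfl⟩ := Nat.exists_eq_add_of_le hi1
    have e : 2 * M * (j + 1) + l = 2 * M * j + (M + (M + l)) := by ring
    have hl : l ≤ 2 * M * n := by
      rw [hn] at hi2
      have : 2 * M * (j + 1 + n) = 2 * M * (j + 1) + 2 * M * n := by ring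
      omega
    rw [e, hcb, h2345b, h345b, h45a l hl, ← e, Nat.add_comm (2 * M * (j + 1)) l,
      Function.iterate_add_apply]

/-- Birkhoff sums -/
noncomputable def bs (g : X → X) (ψ : X → ℝ) (x : X) (n : ℕ) : ℝ := ∑ k ∈ range n, ψ (g^[k] x)

lemma bs_add (g : X → X) (ψ : X → ℝ) (x : X) (a b : ℕ) :
    bs g ψ x (a + b) = bs g ψ x a + bs g ψ (g^[a] x) b := by
  unfold bs
  rw [sum_range_add]
  congr 1
  apply sum_congr rfl
  intro k _
  rw [← Function.iterate_add_apply, add_comm]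

lemma abs_bs_le (g : X → X) (ψ : X → ℝ) {S : ℝ} (hS : ∀ x, |ψ x| ≤ S) (x : X) (n : ℕ) :
    |bs g ψ x n| ≤ n * S := by
  unfold bs
  refine (abs_sum_le_sum_abs _ _).trans ?_
  refine (sum_le_sum fun k _ => hS _).trans ?_
  rw [sum_const, card_range, nsmul_eq_mul]

/-- cost of one block -/
lemma IsBlock.cost {g : X → X} {ε : ℝ} {star : X → X} {x : X} {M q j : ℕ} {c : ℕ → X}
    (hc : IsBlock g ε star x M q j c) (hj : j < q) {ψ : X → ℝ} {δ C S : ℝ}
    (H : IsExp g ψ δ C) (hS : ∀ x, |ψ x| ≤ S) (z : X)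
    (hz : ∀ i ≤ 2 * M * q + M, dist (g^[i] z) (c i) ≤ δ) :
    bs g ψ z (2 * M * q + M) ≤ bs g ψ x (2 * M * q) + (2 * C + 5 * M * S) := by
  obtain ⟨n, hn⟩ : ∃ n, q = j + 1 + n := ⟨q - (j + 1), by omega⟩
  have e1 : 2 * M * q + M = 2 * M * j + (2 * M + (2 * M * n + M)) := by rw [hn]; ring
  have e2 : 2 * M * q = 2 * M * j + (2 * M + 2 * M * n) := by rw [hn]; ring
  have e3 : 2 * M * j + 2 * M = 2 * M * (j + 1) := by ring
  have h1 : bs g ψ z (2 * M * j) ≤ bs g ψ x (2 * M * j) + C := by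
    apply H.cost
    intro k hk
    rw [← hc.left k hk]
    apply hz
    omega
  have h2 : bs g ψ (g^[2 * M] (g^[2 * M * j] z)) (2 * M * n) ≤
      bs g ψ (g^[2 * M] (g^[2 * M * j] x)) (2 * M * n) + C := by
    apply H.cost
    intro k hk
    have e4 : ∀ y, g^[k] (g^[2 * M] (g^[2 * M * j] y)) = g^[2 * M * (j + 1) + k] y := by
      intro y
      have e5 : k + 2 * M + 2 * M * j = 2 * M * (j + 1) + k := by ring
      rw [← Function.iterate_add_apply, ← Function.iterate_add_apply, e5]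
    rw [e4, e4, ← hc.right (2 * M * (j + 1) + k) (by omega) (by rw [e2, ← e3]; omega)]
    apply hz
    rw [e1, ← e3]
    omega
  have a1 := abs_le.1 (abs_bs_le g ψ hS (g^[2 * M * j] z) (2 * M))
  have a2 := abs_le.1 (abs_bs_le g ψ hS (g^[2 * M * j] x) (2 * M))
  have a3 := abs_le.1 (abs_bs_le g ψ hS (g^[2 * M * n] (g^[2 * M] (g^[2 * M * j] z))) M)
  rw [e1, e2, bs_add, bs_add, bs_add, bs_add, bs_add]
  push_cast at a1 a2 a3
  have := a1.2
  have := a2.1
  have := a3.2
  linarith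

/-- the symbol of a block can be read off the position at some times -/
lemma exists_decode {g : X → X} {ε : ℝ} {star : X → X} {x : X} {M q : ℕ} [NeZero q]
    {c : Fin q → ℕ → X} (hc : ∀ j : Fin q, IsBlock g ε star x M q j (c j)) {d : ℝ}
    (hd : ∀ y, d ≤ dist (star y) y) (hd0 : 0 < d) {k : ℕ} (e : Fin k → X) (P : X → Fin k)
    (hP : ∀ y, dist y (e (P y)) ≤ d / 8) :
    ∃ D : (Fin q → Fin k) → Fin q, ∀ (j : Fin q) (z : X),
      (∀ i ≤ 2 * M * q + M, dist (g^[i] z) (c j i) ≤ d / 8) →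
      D (fun l => P (g^[2 * M * l + M] z)) = j := by
  classical
  let Q : (Fin q → Fin k) → Fin q → Prop := fun w l =>
    dist (e (w l)) (star (g^[2 * M * l + M] x)) < d / 2
  refine ⟨fun w => if h : ∃ l, Q w l then h.choose else 0, ?_⟩
  intro j z hz
  have hlq : ∀ l : Fin q, 2 * M * (l : ℕ) + M ≤ 2 * M * q + M := fun l => by
    have := Nat.mul_le_mul_left (2 * M) l.2.le
    omega
  have key : ∀ l, Q (fun l => P (g^[2 * M * l + M] z)) l ↔ l = j := by
    intro l
    constructor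
    · intro hQ
      by_contra hne
      have hcl : c j (2 * M * l + M) = g^[2 * M * l + M] x := by
        rcases lt_or_gt_of_ne hne with h | h
        · apply (hc j).left
          have h' : (l : ℕ) + 1 ≤ j := h
          have := Nat.mul_le_mul_left (2 * M) h'
          have e3 : 2 * M * (l : ℕ) + 2 * M = 2 * M * ((l : ℕ) + 1) := by ring
          omega
        · apply (hc j).right
          · have h' : (j : ℕ) + 1 ≤ l := h
            have := Nat.mul_le_mul_left (2 * M) h'
            omega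
          · have h' : (l : ℕ) + 1 ≤ q := l.2
            have := Nat.mul_le_mul_left (2 * M) h'
            have e3 : 2 * M * (l : ℕ) + 2 * M = 2 * M * ((l : ℕ) + 1) := by ring
            omega
      have h1 := hz _ (hlq l)
      rw [hcl] at h1
      have h2 := hP (g^[2 * M * l + M] z)
      have h3 := hd (g^[2 * M * l + M] x)
      have h4 : dist (star (g^[2 * M * l + M] x)) (g^[2 * M * l + M] x) ≤
          dist (star (g^[2 * M * l + M] x)) (e (P (g^[2 * M * l + M] z))) +
          (dist (e (P (g^[2 * M * l + M] z))) (g^[2 * M * l + M] z) +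
            dist (g^[2 * M * l + M] z) (g^[2 * M * l + M] x)) :=
        (dist_triangle _ _ _).trans (add_le_add le_rfl (dist_triangle _ _ _))
      have h5 : dist (star (g^[2 * M * l + M] x)) (e (P (g^[2 * M * l + M] z))) < d / 2 := by
        rw [dist_comm]; exact hQ
      rw [dist_comm (e _) _] at h4
      linarith
    · rintro rfl
      have h1 := hz _ (hlq l)
      rw [(hc l).mid] at h1
      have h2 := hP (g^[2 * M * l + M] z)
      have h4 : dist (e (P (g^[2 * M * l + M] z))) (star (g^[2 * M * l + M] x)) ≤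
          dist (e (P (g^[2 * M * l + M] z))) (g^[2 * M * l + M] z) +
            dist (g^[2 * M * l + M] z) (star (g^[2 * M * l + M] x)) := dist_triangle _ _ _
      have h5 : dist (e (P (g^[2 * M * l + M] z))) (g^[2 * M * l + M] z) ≤ d / 8 := by
        rw [dist_comm]; exact h2
      change dist (e (P (g^[2 * M * l + M] z))) (star (g^[2 * M * l + M] x)) < d / 2
      linarith
  have hex : ∃ l, Q (fun l => P (g^[2 * M * l + M] z)) l := ⟨j, (key j).2 rfl⟩
  simp only [hex, dif_pos]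
  exact (key _).1 hex.choose_spec

/-- the bi-infinite pseudo-orbit coded by a sequence of symbols -/
def glue {q : ℕ} (c : Fin q → ℕ → X) (B : ℕ) (ω : ℤ → Fin q) (k : ℤ) : X :=
  c (ω (k / B)) (k % B).toNat

/-- the shift -/
def shift {q : ℕ} (ω : ℤ → Fin q) : ℤ → Fin q := fun n => ω (n + 1)

lemma glue_continuous {q : ℕ} (c : Fin q → ℕ → X) (B : ℕ) (k : ℤ) :
    Continuous fun ω => glue c B ω k :=
  (continuous_of_discreteTopology (f := fun j => c j (k % B).toNat)).comp (continuous_apply _)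

lemma glue_shift {q : ℕ} (c : Fin q → ℕ → X) (B : ℕ) (hB : 0 < B) (ω : ℤ → Fin q) (k : ℤ) :
    glue c B (shift ω) k = glue c B ω (k + B) := by
  have hB' : (B : ℤ) ≠ 0 := by exact_mod_cast hB.ne'
  unfold glue shift
  have e1 : (k + B) / (B : ℤ) = k / B + 1 := by
    have := Int.add_mul_ediv_right k 1 hB'
    rwa [one_mul] at this
  have e2 : (k + B) % (B : ℤ) = k % B := by
    simp
  rw [e1, e2]

lemma glue_nat {q : ℕ} (c : Fin q → ℕ → X) (B : ℕ) (ω : ℤ → Fin q) {i : ℕ} (hi : i < B) :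
    glue c B ω i = c (ω 0) i := by
  unfold glue
  rw [Int.ediv_eq_zero_of_lt (by positivity) (by exact_mod_cast hi),
    Int.emod_eq_of_lt (by positivity) (by exact_mod_cast hi), Int.toNat_natCast]

lemma glue_chain {q : ℕ} {g : X → X} {ε : ℝ} {x : X} (c : Fin q → ℕ → X) (B : ℕ) (hB : 0 < B)
    (hc : ∀ j, Ch g ε x x B (c j)) (ω : ℤ → Fin q) (k : ℤ) :
    dist (g (glue c B ω k)) (glue c B ω (k + 1)) < ε := by
  have hB' : (B : ℤ) ≠ 0 := by exact_mod_cast hB.ne'
  have hBpos : (0 : ℤ) < B := by exact_mod_cast hB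
  obtain ⟨i, hi⟩ := Int.eq_ofNat_of_zero_le (Int.emod_nonneg k hB')
  have hiB : i < B := by
    have := Int.emod_lt_of_pos k hBpos
    rw [hi] at this
    exact_mod_cast this
  have hk : k = i + (k / B) * B := by
    have := Int.emod_add_mul_ediv k B
    rw [hi] at this
    linarith
  unfold glue
  rw [hi, Int.toNat_natCast]
  rcases Nat.lt_or_ge (i + 1) B with h | h
  · have e1 : (k + 1) / (B : ℤ) = k / B := by
      have h1 : k + 1 = ((i + 1 : ℕ) : ℤ) + (k / B) * B := by push_cast; linarith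
      conv_lhs => rw [h1]
      rw [Int.add_mul_ediv_right _ _ hB', Int.ediv_eq_zero_of_lt (by positivity)
        (by exact_mod_cast h), zero_add]
    have e2 : (k + 1) % (B : ℤ) = ((i + 1 : ℕ) : ℤ) := by
      have h1 : k + 1 = ((i + 1 : ℕ) : ℤ) + (k / B) * B := by push_cast; linarith
      conv_lhs => rw [h1]
      rw [Int.add_mul_emod_self_right, Int.emod_eq_of_lt (by positivity) (by exact_mod_cast h)]
    rw [e1, e2, Int.toNat_natCast]
    exact (hc _).2.2 i hiB
  · have hiB' : i + 1 = B := by omega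
    have h1 : k + 1 = 0 + (k / B + 1) * B := by
      have : (i : ℤ) + 1 = B := by exact_mod_cast hiB'
      linarith
    have e1 : (k + 1) / (B : ℤ) = k / B + 1 := by
      conv_lhs => rw [h1]
      rw [Int.add_mul_ediv_right _ _ hB', Int.zero_ediv, zero_add]
    have e2 : (k + 1) % (B : ℤ) = 0 := by
      conv_lhs => rw [h1]
      rw [Int.add_mul_emod_self_right, Int.zero_emod]
    rw [e1, e2, Int.toNat_zero, (hc _).1]
    have h2 := (hc (ω (k / B))).2.2 i hiB
    rw [hiB', (hc _).2.1] at h2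
    exact h2

end Pool.Agent.H576R3.PR
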