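import Mathlib

set_option autoImplicit false

open scoped Topology
open MeasureTheory Metric Filter

namespace Pool.Agent.H576R3.PR

section

variable {X : Type*} [MetricSpace X]

/-- points reached from `a` by an `ε`-chain of length `n` -/
def reach (g : X → X) (ε : ℝ) (a : X) : ℕ → Set X
  | 0 => {a}
  | n + 1 => thickening ε (g '' reach g ε a n)

lemma exists_chain_of_mem_reach (g : X → X) (ε : ℝ) (a : X) (n : ℕ) :
    ∀ b ∈ reach g ε a n, ∃ c : ℕ → X, c 0 = a ∧ c n = b ∧
      ∀ i < n, dist (g (c i)) (c (i + 1)) < ε := by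
  induction n with
  | zero =>
    intro b hb
    refine ⟨fun _ => a, rfl, ?_, fun i hi => absurd hi (Nat.not_lt_zero i)⟩
    simpa [reach] using hb.symm
  | succ n ih =>
    intro b hb
    rw [reach, mem_thickening_iff] at hb
    obtain ⟨_, ⟨b', hb', rfl⟩, hd⟩ := hb
    obtain ⟨c, h0, hn, hc⟩ := ih b' hb'
    refine ⟨fun i => if i ≤ n then c i else b, by simpa using h0, by simp, ?_⟩
    intro i hi
    rcases Nat.lt_or_ge i n with h | h
    · have h1 : i ≤ n := h.le
      have h2 : i + 1 ≤ n := h
      simp only [h1, h2, if_true]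
      exact hc i h
    · have h1 : i = n := by omega
      subst h1
      simp only [le_refl, if_true, Nat.succ_le_iff, lt_irrefl, if_false, hn]
      rw [dist_comm]
      exact hd

variable [CompactSpace X] [MeasurableSpace X] [BorelSpace X]

lemma exists_ball_lower [Nonempty X] (μ : Measure X) [IsFiniteMeasure μ] [μ.IsOpenPosMeasure]
    {r : ℝ} (hr : 0 < r) : ∃ v : ℝ, 0 < v ∧ ∀ x, v ≤ μ.real (ball x r) := by
  obtain ⟨t, -, htf, htc⟩ := finite_cover_balls_of_compact (isCompact_univ (X := X)) (half_pos hr)
  have hne : t.Nonempty := by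
    obtain ⟨x⟩ := ‹Nonempty X›
    have := htc (Set.mem_univ x)
    simp only [Set.mem_iUnion] at this
    obtain ⟨y, hy, -⟩ := this
    exact ⟨y, hy⟩
  obtain ⟨x0, hx0, hmin⟩ := Set.exists_min_image t (fun x => μ.real (ball x (r / 2))) htf hne
  refine ⟨μ.real (ball x0 (r / 2)), ?_, ?_⟩
  · exact ENNReal.toReal_pos (measure_ball_pos μ x0 (half_pos hr)).ne' (measure_ne_top _ _)
  · intro y
    have := htc (Set.mem_univ y)
    simp only [Set.mem_iUnion] at this
    obtain ⟨x, hx, hyx⟩ := this
    refine (hmin x hx).trans (measureReal_mono ?_)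
    intro z hz
    rw [mem_ball] at *
    calc dist z y ≤ dist z x + dist x y := dist_triangle _ _ _
      _ < r / 2 + r / 2 := by rw [dist_comm x y]; exact add_lt_add hz hyx
      _ = r := by ring

lemma thickening_growth [ConnectedSpace X] (μ : Measure X) [IsFiniteMeasure μ] {ε v : ℝ}
    (hε : 0 < ε) (hv : ∀ x, v ≤ μ.real (ball x (ε / 2))) (S : Set X) (hS : S.Nonempty) :
    thickening ε S = Set.univ ∨ μ.real S + v ≤ μ.real (thickening ε S) := by
  by_cases hu : thickening ε S = Set.univ
  · exact Or.inl hu
  right
  obtain ⟨p, hp⟩ := (Set.ne_univ_iff_exists_notMem _).1 hu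
  obtain ⟨s, hs⟩ := hS
  have h1 : infDist s S ≤ ε / 2 := by rw [infDist_zero_of_mem hs]; positivity
  have h2 : ε / 2 ≤ infDist p S := by
    by_contra hlt
    push Not at hlt
    apply hp
    rw [mem_thickening_iff]
    exact (infDist_lt_iff ⟨s, hs⟩).1 (hlt.trans (by linarith))
  obtain ⟨q, hq⟩ := mem_range_of_exists_le_of_exists_ge (continuous_infDist_pt S) ⟨s, h1⟩ ⟨p, h2⟩
  have hdis : Disjoint S (ball q (ε / 2)) := by
    rw [Set.disjoint_left]
    intro y hy hyb
    have := infDist_le_dist_of_mem (x := q) hy
    rw [mem_ball, dist_comm] at hyb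
    linarith
  have hsub : S ∪ ball q (ε / 2) ⊆ thickening ε S := by
    apply Set.union_subset (self_subset_thickening hε S)
    intro y hy
    rw [mem_thickening_iff]
    apply (infDist_lt_iff ⟨s, hs⟩).1
    have := infDist_le_infDist_add_dist (s := S) (x := y) (y := q)
    rw [mem_ball] at hy
    linarith
  calc μ.real S + v ≤ μ.real S + μ.real (ball q (ε / 2)) := by linarith [hv q]
    _ = μ.real (S ∪ ball q (ε / 2)) := (measureReal_union hdis measurableSet_ball).symm
    _ ≤ _ := measureReal_mono hsub

/-- exact-time chain mixing for a homeomorphism preserving a measure of full support -/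
theorem chain_mixing [ConnectedSpace X] (g : X ≃ₜ X) (μ : Measure X) [IsFiniteMeasure μ]
    [μ.IsOpenPosMeasure] (hμ : MeasurePreserving g μ μ) {ε : ℝ} (hε : 0 < ε) :
    ∃ M : ℕ, 0 < M ∧ ∀ a b, ∃ c : ℕ → X, c 0 = a ∧ c M = b ∧
      ∀ i < M, dist (g (c i)) (c (i + 1)) < ε := by
  obtain ⟨v, hv0, hv⟩ := exists_ball_lower μ (half_pos hε)
  have hne : ∀ a n, (reach g ε a n).Nonempty := by
    intro a n
    induction n with
    | zero => exact ⟨a, rfl⟩
    | succ n ih =>
      obtain ⟨x, hx⟩ := ih
      exact ⟨g x, self_subset_thickening hε _ ⟨x, hx, rfl⟩⟩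
  have key : ∀ a n, reach g ε a n = Set.univ ∨ n * v ≤ μ.real (reach g ε a n) := by
    intro a n
    induction n with
    | zero => right; simp
    | succ n ih =>
      rcases ih with h | h
      · left
        rw [reach, h, Set.image_univ, g.range_coe]
        exact Set.eq_univ_of_univ_subset (self_subset_thickening hε _)
      · rcases thickening_growth μ hε hv (g '' reach g ε a n) ((hne a n).image _) with h1 | h1
        · left
          rw [reach, h1]
        · right
          rw [reach]
          refine le_trans ?_ h1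
          have h2 : μ.real (g '' reach g ε a n) = μ.real (reach g ε a n) := by
            have h3 : MeasurePreserving g.toMeasurableEquiv μ μ := hμ
            have h4 := h3.measure_preimage_equiv (g '' reach g ε a n)
            have h5 : (g.toMeasurableEquiv ⁻¹' (g '' reach g ε a n)) = reach g ε a n :=
              g.injective.preimage_image _
            rw [h5] at h4
            rw [measureReal_def, measureReal_def, h4]
          rw [h2]
          push_cast
          linarith
  obtain ⟨M, hM⟩ := exists_nat_gt (μ.real Set.univ / v)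
  refine ⟨M + 1, Nat.succ_pos M, fun a b => exists_chain_of_mem_reach g ε a (M + 1) b ?_⟩
  rcases key a (M + 1) with h | h
  · rw [h]; trivial
  · exfalso
    have h1 : μ.real (reach g ε a (M + 1)) ≤ μ.real Set.univ := measureReal_mono (Set.subset_univ _)
    rw [div_lt_iff₀ hv0] at hM
    push_cast at h
    nlinarith

end

end Pool.Agent.H576R3.PR
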