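import Pool.Agent.H576R3.PR.Down

set_option autoImplicit false

open scoped Topology
open Filter Finset

namespace Pool.Agent.H576R3.PR

lemma int_seq_zero (D : ℤ → ℝ) {δ C : ℝ} (hC : 0 ≤ C) (h0 : ∀ k, 0 ≤ D k)
    (h1 : ∀ k, D k ≤ δ)
    (h2 : ∀ (a : ℤ) (n : ℕ), ∑ i ∈ range n, D (a + i) ≤ C * (D a + D (a + n))) : D 0 = 0 := by
  by_contra hne
  have hpos : 0 < D 0 := lt_of_le_of_ne (h0 0) (Ne.symm hne)
  obtain ⟨n, hn⟩ := exists_nat_gt (4 * C ^ 2 * δ / D 0)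
  have hδ : 0 ≤ δ := (h0 0).trans (h1 0)
  have hn0 : 0 < (n : ℝ) := lt_of_le_of_lt (by positivity) hn
  have hn0' : 0 < n := by exact_mod_cast hn0
  have small : ∀ a : ℤ, ∃ i < n, D (a + i) ≤ 2 * C * δ / n := by
    intro a
    have hs : ∑ i ∈ range n, D (a + i) ≤ ∑ i ∈ range n, (2 * C * δ / n) := by
      rw [sum_const, card_range, nsmul_eq_mul, mul_div_cancel₀ _ hn0.ne']
      refine (h2 a n).trans ?_
      have := add_le_add (h1 a) (h1 (a + n))
      have := mul_le_mul_of_nonneg_left this hC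
      linarith
    obtain ⟨i, hi, h⟩ := exists_le_of_sum_le (nonempty_range_iff.2 hn0'.ne') hs
    exact ⟨i, mem_range.1 hi, h⟩
  obtain ⟨i, hi, hDi⟩ := small (-n)
  obtain ⟨j, hj, hDj⟩ := small 1
  have h3 := h2 (-n + i) (n - i + 1 + j)
  have e1 : (-(n : ℤ) + i) + ((n - i + 1 + j : ℕ) : ℤ) = 1 + j := by
    push_cast [Nat.cast_sub hi.le]
    ring
  rw [e1] at h3
  have h4 : D 0 ≤ ∑ l ∈ range (n - i + 1 + j), D (-(n : ℤ) + i + l) := by
    have h5 : D (-(n : ℤ) + i + ((n - i : ℕ) : ℤ)) ≤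
        ∑ l ∈ range (n - i + 1 + j), D (-(n : ℤ) + i + l) :=
      single_le_sum (f := fun l : ℕ => D (-(n : ℤ) + i + l)) (fun l _ => h0 _)
        (mem_range.2 (by omega))
    have e2 : -(n : ℤ) + i + ((n - i : ℕ) : ℤ) = 0 := by
      push_cast [Nat.cast_sub hi.le]
      ring
    rwa [e2] at h5
  have h5 : D 0 ≤ C * (2 * C * δ / n + 2 * C * δ / n) :=
    h4.trans (h3.trans (mul_le_mul_of_nonneg_left (add_le_add hDi hDj) hC))
  have h6 : C * (2 * C * δ / n + 2 * C * δ / n) = 4 * C ^ 2 * δ / n := by ring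
  rw [h6, le_div_iff₀ hn0] at h5
  rw [div_lt_iff₀ hpos] at hn
  linarith

variable {X : Type*} [MetricSpace X]

lemma zpow_nat_apply (g : X ≃ₜ X) (n : ℕ) (x : X) : (g ^ (n : ℤ)) x = g^[n] x := by
  rw [zpow_natCast]
  induction n generalizing x with
  | zero => rfl
  | succ n ih => rw [pow_succ, Homeomorph.mul_apply, ih, Function.iterate_succ_apply]

lemma zpow_add_apply' (g : X ≃ₜ X) (a b : ℤ) (x : X) : (g ^ (a + b)) x = (g ^ a) ((g ^ b) x) := by
  rw [zpow_add, Homeomorph.mul_apply]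

lemma IsExp.expansive {g : X ≃ₜ X} {ψ : X → ℝ} {δ C : ℝ} (H : IsExp g ψ δ C) (x z : X)
    (h : ∀ k : ℤ, dist ((g ^ k) z) ((g ^ k) x) ≤ δ) : z = x := by
  have h0 := int_seq_zero (fun k : ℤ => dist ((g ^ k) z) ((g ^ k) x)) H.Cpos
    (fun k => dist_nonneg) h (by
      intro a n
      have e : ∀ (i : ℕ) (y : X), (g ^ (a + i)) y = g^[i] ((g ^ a) y) := by
        intro i y
        rw [add_comm, zpow_add_apply', zpow_nat_apply]
      have h1 := H.sum ((g ^ a) x) ((g ^ a) z) n (fun k _ => by rw [← e, ← e]; exact h _)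
      simp_rw [← e] at h1
      exact h1)
  have h1 : dist z x = 0 := by simpa using h0
  exact dist_eq_zero.1 h1

lemma IsExp.shadow_int [CompactSpace X] {g : X ≃ₜ X} {ψ : X → ℝ} {δ C : ℝ} (H : IsExp g ψ δ C)
    {δ' : ℝ} (hδ' : 0 < δ') : ∃ ε > 0, ∀ c : ℤ → X, (∀ k, dist (g (c k)) (c (k + 1)) < ε) →
      ∃ z, ∀ k : ℤ, dist ((g ^ k) z) (c k) ≤ δ' := by
  obtain ⟨ε, hε, hsh⟩ := H.shadow δ' hδ'
  refine ⟨ε, hε, ?_⟩
  intro c hc
  let Kn : ℕ → Set X := fun n => {z | ∀ k : ℤ, -(n : ℤ) ≤ k → k ≤ n → dist ((g ^ k) z) (c k) ≤ δ'}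
  have hcl : ∀ n, IsClosed (Kn n) := by
    intro n
    simp only [Kn, Set.ofPred_forall]
    refine isClosed_iInter fun k => isClosed_iInter fun _ => isClosed_iInter fun _ => ?_
    exact isClosed_le ((g ^ k).continuous.dist continuous_const) continuous_const
  have hne : ∀ n, (Kn n).Nonempty := by
    intro n
    obtain ⟨z, hz⟩ := hsh (fun i => c (-(n : ℤ) + i)) (2 * n) (by
      intro i _
      have := hc (-(n : ℤ) + i)
      rw [add_assoc] at this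
      exact_mod_cast this)
    refine ⟨(g ^ (n : ℤ)) z, ?_⟩
    intro k hk1 hk2
    obtain ⟨i, hi⟩ := Int.eq_ofNat_of_zero_le (show 0 ≤ k + n by omega)
    have h1 := hz i (by omega)
    rw [← zpow_add_apply', hi, zpow_nat_apply]
    have e : -(n : ℤ) + i = k := by omega
    rw [e] at h1
    exact h1
  have hdec : ∀ n, Kn (n + 1) ⊆ Kn n := by
    intro n z hz k hk1 hk2
    exact hz k (by push_cast; omega) (by push_cast; omega)
  obtain ⟨z, hz⟩ := IsCompact.nonempty_iInter_of_sequence_nonempty_isCompact_isClosed Kn hdec hne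
    (hcl 0).isCompact hcl
  refine ⟨z, fun k => ?_⟩
  have h1 := Set.mem_iInter.1 hz k.natAbs
  exact h1 k (by omega) (by omega)

/-- the coding map -/
theorem IsExp.coding [CompactSpace X] {g : X ≃ₜ X} {ψ : X → ℝ} {δ C : ℝ} (H : IsExp g ψ δ C)
    {δ' : ℝ} (hδ' : 0 < δ') (hδ'δ : 2 * δ' ≤ δ) : ∃ ε > 0, ∀ (Ω : Type) [TopologicalSpace Ω]
      (c : Ω → ℤ → X), (∀ k, Continuous fun ω => c ω k) →
      (∀ ω k, dist (g (c ω k)) (c ω (k + 1)) < ε) →
      ∃ Φ : Ω → X, Continuous Φ ∧ (∀ ω (k : ℤ), dist ((g ^ k) (Φ ω)) (c ω k) ≤ δ') ∧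
        ∀ ω z, (∀ k : ℤ, dist ((g ^ k) z) (c ω k) ≤ δ') → z = Φ ω := by
  obtain ⟨ε, hε, hsh⟩ := H.shadow_int hδ'
  refine ⟨ε, hε, ?_⟩
  intro Ω _ c hcont hc
  choose Φ hΦ using fun ω => hsh (c ω) (hc ω)
  have huniq : ∀ ω z, (∀ k : ℤ, dist ((g ^ k) z) (c ω k) ≤ δ') → z = Φ ω := by
    intro ω z hz
    apply H.expansive
    intro k
    calc dist ((g ^ k) z) ((g ^ k) (Φ ω)) ≤
        dist ((g ^ k) z) (c ω k) + dist (c ω k) ((g ^ k) (Φ ω)) := dist_triangle _ _ _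
      _ ≤ δ' + δ' := add_le_add (hz k) (by rw [dist_comm]; exact hΦ ω k)
      _ ≤ δ := by linarith
  refine ⟨Φ, ?_, hΦ, huniq⟩
  rw [continuous_iff_isClosed]
  intro S hS
  have hgr : IsClosed {q : Ω × X | q.2 ∈ S ∧ ∀ k : ℤ, dist ((g ^ k) q.2) (c q.1 k) ≤ δ'} := by
    rw [Set.ofPred_and]
    apply (hS.preimage continuous_snd).inter
    simp only [Set.ofPred_forall]
    refine isClosed_iInter fun k => ?_
    exact isClosed_le (((g ^ k).continuous.comp continuous_snd).dist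
      ((hcont k).comp continuous_fst)) continuous_const
  have h1 := isClosedMap_fst_of_compactSpace (X := Ω) (Y := X) _ hgr
  convert h1 using 1
  ext ω
  constructor
  · intro hω
    exact ⟨(ω, Φ ω), ⟨hω, hΦ ω⟩, rfl⟩
  · rintro ⟨⟨ω', z⟩, ⟨hz, hzk⟩, rfl⟩
    have := huniq _ _ hzk
    change Φ ω' ∈ S
    rw [← this]
    exact hz

end Pool.Agent.H576R3.PR
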