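import Pool.Agent.H576R3.PR.Shadow

set_option autoImplicit false

open scoped Topology
open Filter Finset

namespace Pool.Agent.H576R3.PR

/-- metric properties of the covering map -/
structure IsCover {V X : Type*} [NormedAddCommGroup V] [MetricSpace X] (p : V → X) (κ r : ℝ) :
    Prop where
  one_le : 1 ≤ κ
  rpos : 0 < r
  surj : Function.Surjective p
  lip : ∀ a b, dist (p a) (p b) ≤ κ * ‖a - b‖
  lift : ∀ (a : V) (y : X), ∃ b, p b = y ∧ ‖b - a‖ ≤ κ * dist y (p a)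
  inj : ∀ a b, ‖a - b‖ ≤ r → p a = p b → a = b

/-- the properties of the dynamics downstairs -/
structure IsExp {X : Type*} [MetricSpace X] (g : X → X) (ψ : X → ℝ) (δ C : ℝ) : Prop where
  δpos : 0 < δ
  Cpos : 0 ≤ C
  sum : ∀ (x z : X) (n : ℕ), (∀ k ≤ n, dist (g^[k] z) (g^[k] x) ≤ δ) →
    ∑ k ∈ range n, dist (g^[k] z) (g^[k] x) ≤ C * (dist z x + dist (g^[n] z) (g^[n] x))
  cost : ∀ (x z : X) (n : ℕ), (∀ k ≤ n, dist (g^[k] z) (g^[k] x) ≤ δ) →
    ∑ k ∈ range n, ψ (g^[k] z) ≤ ∑ k ∈ range n, ψ (g^[k] x) + C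
  shadow : ∀ δ' > 0, ∃ ε > 0, ∀ (c : ℕ → X) (n : ℕ), (∀ i < n, dist (g (c i)) (c (i + 1)) < ε) →
    ∃ z, ∀ i ≤ n, dist (g^[i] z) (c i) ≤ δ'

variable {V X : Type*} [NormedAddCommGroup V] [InnerProductSpace ℝ V] [MetricSpace X]
    {G : V → V} {A P : V → V →L[ℝ] V} {ψ : V → ℝ} {K : ℝ} {p : V → X} {κ r : ℝ}
    {g : X → X} {ψ' : X → ℝ}

lemma iterate_semi (hg : ∀ a, p (G a) = g (p a)) (n : ℕ) (a : V) : p (G^[n] a) = g^[n] (p a) := by
  induction n with
  | zero => rfl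
  | succ n ih => rw [Function.iterate_succ_apply', Function.iterate_succ_apply', hg, ih]

/-- lifting a pair of nearby orbits -/
lemma lift_pair (H : IsHyp G A P ψ K) (hp : IsCover p κ r) (hg : ∀ a, p (G a) = g (p a))
    {δ : ℝ} (hδ1 : κ * δ ≤ 1) (hδ2 : (1 + 2 * K) * (κ * δ) ≤ r) (x z : X) (n : ℕ)
    (h : ∀ k ≤ n, dist (g^[k] z) (g^[k] x) ≤ δ) :
    ∃ a b : V, p a = x ∧ p b = z ∧ ∀ k ≤ n,
      ‖G^[k] b - G^[k] a‖ ≤ κ * dist (g^[k] z) (g^[k] x) := by
  have hκ := hp.one_le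
  have hK := H.one_le
  obtain ⟨a, ha⟩ := hp.surj x
  obtain ⟨b, hb, hba⟩ := hp.lift a z
  refine ⟨a, b, ha, hb, ?_⟩
  intro k
  induction k with
  | zero =>
    intro _
    rw [ha] at hba
    exact hba
  | succ k ih =>
    intro hk
    have h1 := ih (by omega)
    have h1' : ‖G^[k] b - G^[k] a‖ ≤ κ * δ :=
      h1.trans (mul_le_mul_of_nonneg_left (h k (by omega)) (by linarith))
    set y := G^[k] a with hy
    set ζ := G^[k] b - y with hζ
    have h2 : ‖G (G^[k] b) - G y‖ ≤ 2 * K * (κ * δ) := by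
      have e1 : G (G^[k] b) - G y = (G (y + ζ) - G y - A y ζ) + A y ζ := by
        rw [hζ, add_sub_cancel]; abel
      rw [e1]
      have h3 := H.taylor y ζ
      have h4 : ‖A y ζ‖ ≤ K * ‖ζ‖ :=
        ((A y).le_opNorm ζ).trans (mul_le_mul_of_nonneg_right (H.boundA _) (norm_nonneg _))
      have h5 : ‖ζ‖ ^ 2 ≤ ‖ζ‖ := by
        have := norm_nonneg ζ
        nlinarith [h1'.trans hδ1]
      have h6 := norm_add_le (G (y + ζ) - G y - A y ζ) (A y ζ)
      nlinarith
    obtain ⟨b', hb', hb'a⟩ := hp.lift (G y) (g^[k + 1] z)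
    have hpGy : p (G y) = g^[k + 1] x := by
      rw [hg, hy, iterate_semi hg, ha, Function.iterate_succ_apply']
    rw [hpGy] at hb'a
    have h3 : ‖b' - G y‖ ≤ κ * δ :=
      hb'a.trans (mul_le_mul_of_nonneg_left (h (k + 1) hk) (by linarith))
    have h4 : b' = G (G^[k] b) := by
      apply hp.inj
      · calc ‖b' - G (G^[k] b)‖ = ‖(b' - G y) - (G (G^[k] b) - G y)‖ := by congr 1; abel
          _ ≤ κ * δ + 2 * K * (κ * δ) := (norm_sub_le _ _).trans (add_le_add h3 h2)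
          _ = (1 + 2 * K) * (κ * δ) := by ring
          _ ≤ r := hδ2
      · rw [hb', hg, iterate_semi hg, hb, Function.iterate_succ_apply']
    rw [Function.iterate_succ_apply', Function.iterate_succ_apply' G k a, ← hy, ← h4]
    exact hb'a

/-- lifting a pseudo-orbit -/
lemma lift_pseudo (hp : IsCover p κ r) (hg : ∀ a, p (G a) = g (p a)) (c : ℕ → X) :
    ∃ c' : ℕ → V, (∀ i, p (c' i) = c i) ∧
      ∀ i, ‖G (c' i) - c' (i + 1)‖ ≤ κ * dist (g (c i)) (c (i + 1)) := by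
  choose lf hlf1 hlf2 using hp.lift
  obtain ⟨a0, ha0⟩ := hp.surj (c 0)
  let c' : ℕ → V := fun k => Nat.rec a0 (fun i w => lf (G w) (c (i + 1))) k
  have hs : ∀ i, c' (i + 1) = lf (G (c' i)) (c (i + 1)) := fun i => rfl
  have hpc : ∀ i, p (c' i) = c i := by
    intro i
    cases i with
    | zero => exact ha0
    | succ i => rw [hs, hlf1]
  refine ⟨c', hpc, ?_⟩
  intro i
  have := hlf2 (G (c' i)) (c (i + 1))
  rw [← hs, hg, hpc, dist_comm, norm_sub_rev] at this
  exact this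

theorem isExp_of_isHyp (H : IsHyp G A P ψ K) (hp : IsCover p κ r) (hg : ∀ a, p (G a) = g (p a))
    (hψ : ∀ a, ψ' (p a) = ψ a) : ∃ δ C : ℝ, IsExp g ψ' δ C := by
  have hκ := hp.one_le
  have hK := H.one_le
  have hr := hp.rpos
  obtain ⟨ρ1, hρ1, hP1⟩ := H.unifP (1 / 2) (by norm_num)
  -- a common radius upstairs
  obtain ⟨ρ, hρ0, hρa, hρb, hρc, hρd⟩ : ∃ ρ : ℝ, 0 < ρ ∧ ρ ≤ ρ1 ∧ (1 + K) * K * ρ ≤ 1 / 8 ∧
      ρ ≤ 1 ∧ (1 + 2 * K) * ρ ≤ r := by
    refine ⟨min ρ1 (min (1 / (8 * ((1 + K) * K))) (min 1 (r / (1 + 2 * K)))), ?_, ?_, ?_, ?_, ?_⟩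
    · positivity
    · exact min_le_left _ _
    · have h1 : min ρ1 (min (1 / (8 * ((1 + K) * K))) (min 1 (r / (1 + 2 * K)))) ≤
          1 / (8 * ((1 + K) * K)) := (min_le_right _ _).trans (min_le_left _ _)
      have h2 : 0 < (1 + K) * K := by positivity
      rw [le_div_iff₀ (by positivity)] at h1
      linarith
    · exact (min_le_right _ _).trans ((min_le_right _ _).trans (min_le_left _ _))
    · have h1 : min ρ1 (min (1 / (8 * ((1 + K) * K))) (min 1 (r / (1 + 2 * K)))) ≤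
          r / (1 + 2 * K) := (min_le_right _ _).trans ((min_le_right _ _).trans (min_le_right _ _))
      rw [le_div_iff₀ (by positivity)] at h1
      linarith
  set δ := ρ / κ with hδ
  have hδ0 : 0 < δ := by positivity
  have hκδ : κ * δ = ρ := by rw [hδ]; field_simp
  set CS := κ * (2 * (1 + K)) * κ with hCS
  set CT := 2 * (1 + K) * K * (2 * (1 + K) * (ρ + ρ)) + Real.log 3 with hCT
  have hCS0 : 0 ≤ CS := by positivity
  have hCT0 : 0 ≤ CT := by
    have : 0 ≤ Real.log 3 := Real.log_nonneg (by norm_num)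
    positivity
  refine ⟨δ, CS + CT, hδ0, by positivity, ?_, ?_, ?_⟩
  · intro x z n h
    obtain ⟨a, b, ha, hb, hab⟩ := lift_pair H hp hg (by rw [hκδ]; exact hρc)
      (by rw [hκδ]; exact hρd) x z n h
    have hd : ∀ k ≤ n, ‖G^[k] b - G^[k] a‖ ≤ ρ := by
      intro k hk
      refine (hab k hk).trans ?_
      rw [← hκδ]
      exact mul_le_mul_of_nonneg_left (h k hk) (by linarith)
    have h1 := H.sum_bound hρb a b n hd
    have h2 : ∑ k ∈ range n, dist (g^[k] z) (g^[k] x) ≤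
        κ * ∑ k ∈ range n, ‖G^[k] b - G^[k] a‖ := by
      rw [mul_sum]
      apply sum_le_sum
      intro k _
      rw [← ha, ← hb, ← iterate_semi hg, ← iterate_semi hg]
      exact hp.lip _ _
    have h3 : ‖b - a‖ ≤ κ * dist z x := hab 0 (Nat.zero_le _)
    have h4 : ‖G^[n] b - G^[n] a‖ ≤ κ * dist (g^[n] z) (g^[n] x) := hab n le_rfl
    have h5 : 0 ≤ dist z x + dist (g^[n] z) (g^[n] x) := by positivity
    calc ∑ k ∈ range n, dist (g^[k] z) (g^[k] x) ≤
        κ * ∑ k ∈ range n, ‖G^[k] b - G^[k] a‖ := h2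
      _ ≤ κ * (2 * (1 + K) * (‖b - a‖ + ‖G^[n] b - G^[n] a‖)) :=
        mul_le_mul_of_nonneg_left h1 (by linarith)
      _ ≤ κ * (2 * (1 + K) * (κ * dist z x + κ * dist (g^[n] z) (g^[n] x))) := by
        apply mul_le_mul_of_nonneg_left _ (by linarith)
        apply mul_le_mul_of_nonneg_left _ (by linarith)
        linarith
      _ = CS * (dist z x + dist (g^[n] z) (g^[n] x)) := by rw [hCS]; ring
      _ ≤ (CS + CT) * (dist z x + dist (g^[n] z) (g^[n] x)) :=
        mul_le_mul_of_nonneg_right (by linarith) h5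
  · intro x z n h
    obtain ⟨a, b, ha, hb, hab⟩ := lift_pair H hp hg (by rw [hκδ]; exact hρc)
      (by rw [hκδ]; exact hρd) x z n h
    have hd : ∀ k ≤ n, ‖G^[k] b - G^[k] a‖ ≤ ρ := by
      intro k hk
      refine (hab k hk).trans ?_
      rw [← hκδ]
      exact mul_le_mul_of_nonneg_left (h k hk) (by linarith)
    have h1 : ∑ k ∈ range n, ‖G^[k] b - G^[k] a‖ ≤ 2 * (1 + K) * (ρ + ρ) := by
      refine (H.sum_bound hρb a b n hd).trans ?_
      apply mul_le_mul_of_nonneg_left _ (by linarith)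
      exact add_le_add (hd 0 (Nat.zero_le _)) (hd n le_rfl)
    have h2 := H.cost_bound (fun x y hxy => hP1 x y (hxy.trans hρa)) a b n hd h1
    have e1 : ∀ k, ψ' (g^[k] z) = ψ (G^[k] b) := by
      intro k; rw [← hψ, iterate_semi hg, hb]
    have e2 : ∀ k, ψ' (g^[k] x) = ψ (G^[k] a) := by
      intro k; rw [← hψ, iterate_semi hg, ha]
    simp_rw [e1, e2]
    rw [← hCT] at h2
    linarith
  · intro δ' hδ'
    -- radius and constants for shadowing
    obtain ⟨R, hR0, hRa, hRb⟩ : ∃ R : ℝ, 0 < R ∧ 4 * (1 + K) * K * R ≤ 1 / 8 ∧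
        κ * (2 * R) ≤ δ' := by
      refine ⟨min (1 / (8 * (4 * (1 + K) * K))) (δ' / (2 * κ)), by positivity, ?_, ?_⟩
      · have h1 : min (1 / (8 * (4 * (1 + K) * K))) (δ' / (2 * κ)) ≤ 1 / (8 * (4 * (1 + K) * K)) :=
          min_le_left _ _
        rw [le_div_iff₀ (by positivity)] at h1
        linarith
      · have h1 : min (1 / (8 * (4 * (1 + K) * K))) (δ' / (2 * κ)) ≤ δ' / (2 * κ) :=
          min_le_right _ _
        rw [le_div_iff₀ (by positivity)] at h1
        linarith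
    obtain ⟨ε1, hε1, hP⟩ := H.unifP (1 / (8 * K)) (by positivity)
    set ε := min ε1 (R / (8 * (1 + K))) with hε
    have hε0 : 0 < ε := by positivity
    have hεb : (1 + K) * ε ≤ R / 8 := by
      have h1 : ε ≤ R / (8 * (1 + K)) := min_le_right _ _
      rw [le_div_iff₀ (by positivity)] at h1
      linarith
    refine ⟨ε / κ, by positivity, ?_⟩
    intro c n hc
    obtain ⟨c', hc', hd⟩ := lift_pseudo hp hg c
    have hκpos : 0 < κ := by linarith
    obtain ⟨z, hz⟩ := H.shadow (η := 1 / (8 * K)) (ε := ε) hR0 (by positivity)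
      (by rw [div_mul_eq_mul_div, one_mul, div_le_iff₀ (by positivity)]; linarith) hRa hε0.le hεb
      (fun x y hxy => hP x y (hxy.trans (min_le_left _ _))) c' n (by
        intro i hi
        refine (hd i).trans ?_
        have := (hc i hi).le
        rw [le_div_iff₀ hκpos] at this
        linarith)
    refine ⟨p z, fun i hi => ?_⟩
    rw [← iterate_semi hg, ← hc' i]
    refine (hp.lip _ _).trans (le_trans ?_ hRb)
    exact mul_le_mul_of_nonneg_left (hz i hi) (by linarith)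

end Pool.Agent.H576R3.PR
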