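import Pool.Agent.H576R3.PR.Defs
import Pool.Agent.H576R3.PR.Down

set_option autoImplicit false

open scoped Topology ENNReal
open MeasureTheory Filter Finset

namespace Pool.Agent.H576R3.PR

lemma circle_norm (x : ℝ) : ‖((x : ℝ) : UnitAddCircle)‖ = |x - round x| := UnitAddCircle.norm_eq

lemma plane_norm_le (v : Plane) {s : ℝ} (h : ∀ i, |v i| ≤ s) : ‖v‖ ≤ 2 * s := by
  have hs : 0 ≤ s := (abs_nonneg _).trans (h 0)
  rw [EuclideanSpace.norm_eq]
  apply Real.sqrt_le_iff.2
  refine ⟨by positivity, ?_⟩
  rw [Fin.sum_univ_two]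
  have h0 := h 0
  have h1 := h 1
  simp only [Real.norm_eq_abs]
  have := abs_nonneg (v 0)
  have := abs_nonneg (v 1)
  nlinarith

lemma isCover_proj : IsCover proj 2 (1 / 2) := by
  refine ⟨by norm_num, by norm_num, ?_, ?_, ?_, ?_⟩
  · intro y
    choose c hc using fun i => QuotientAddGroup.mk_surjective (y i)
    exact ⟨WithLp.toLp 2 c, funext fun i => hc i⟩
  · intro a b
    have h1 : dist (proj a) (proj b) ≤ ‖a - b‖ := by
      rw [dist_pi_le_iff (norm_nonneg _)]
      intro i
      rw [dist_eq_norm]
      change ‖((a i : ℝ) : UnitAddCircle) - ((b i : ℝ) : UnitAddCircle)‖ ≤ _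
      rw [← QuotientAddGroup.mk_sub]
      change ‖((a i - b i : ℝ) : UnitAddCircle)‖ ≤ _
      rw [circle_norm]
      have h2 := round_le (a i - b i) 0
      rw [Int.cast_zero, sub_zero] at h2
      refine h2.trans ?_
      have h3 := PiLp.norm_apply_le (a - b) i
      simpa using h3
    have := norm_nonneg (a - b)
    linarith
  · intro a y
    choose c hc using fun i => QuotientAddGroup.mk_surjective (y i)
    refine ⟨WithLp.toLp 2 (fun i => a i + (c i - a i - round (c i - a i))), ?_, ?_⟩
    · funext i
      change ((a i + (c i - a i - round (c i - a i)) : ℝ) : UnitAddCircle) = y i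
      rw [← hc i]
      have e : a i + (c i - a i - round (c i - a i)) = c i - round (c i - a i) := by ring
      rw [e]
      change _ = ((c i : ℝ) : UnitAddCircle)
      rw [AddCircle.coe_sub]
      have h1 : ((((round (c i - a i) : ℤ) : ℝ)) : UnitAddCircle) = 0 := by
        rw [AddCircle.coe_eq_zero_iff]
        exact ⟨round (c i - a i), by simp⟩
      rw [h1, sub_zero]
    · apply plane_norm_le
      intro i
      have h1 : |c i - a i - round (c i - a i)| = ‖y i - ((a i : ℝ) : UnitAddCircle)‖ := by
        rw [← hc i]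
        change _ = ‖((c i : ℝ) : UnitAddCircle) - ((a i : ℝ) : UnitAddCircle)‖
        rw [← AddCircle.coe_sub, circle_norm]
      have h2 : (WithLp.toLp 2 (fun i => a i + (c i - a i - round (c i - a i))) - a : Plane) i =
          c i - a i - round (c i - a i) := by
        simp
      rw [h2, h1]
      have h3 := dist_le_pi_dist y (proj a) i
      rw [dist_eq_norm] at h3
      exact h3
  · intro a b hab h
    ext i
    have h1 : ((a i - b i : ℝ) : UnitAddCircle) = 0 := by
      rw [AddCircle.coe_sub, sub_eq_zero]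
      exact congrFun h i
    rw [AddCircle.coe_eq_zero_iff] at h1
    obtain ⟨n, hn⟩ := h1
    simp only [zsmul_eq_mul, mul_one] at hn
    have h2 := PiLp.norm_apply_le (a - b) i
    have h3 : |a i - b i| ≤ 1 / 2 := by
      refine le_trans ?_ hab
      simpa using h2
    rw [← hn] at h3
    have h4 : |n| < 1 := by
      have : (|n| : ℝ) < 1 := by linarith
      exact_mod_cast this
    have h5 : n = 0 := by
      rw [Int.abs_lt_one_iff] at h4
      exact h4
    rw [h5, Int.cast_zero] at hn
    linarith

/-- every point of the plane is the chosen point above its projection, up to an integer vector -/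
lemma rep_proj (x : Plane) : ∃ v : Fin 2 → ℤ, rep (proj x) = x + lat v := by
  have h : ∀ i, ∃ n : ℤ, (Quotient.out (proj x i) : ℝ) = x i + n := by
    intro i
    have h1 : ((Quotient.out (proj x i) : ℝ) : UnitAddCircle) = ((x i : ℝ) : UnitAddCircle) :=
      QuotientAddGroup.out_eq' (proj x i)
    have h2 : ((Quotient.out (proj x i) - x i : ℝ) : UnitAddCircle) = 0 := by
      rw [AddCircle.coe_sub, sub_eq_zero]
      exact h1
    rw [AddCircle.coe_eq_zero_iff] at h2
    obtain ⟨n, hn⟩ := h2
    simp only [zsmul_eq_mul, mul_one] at hn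
    exact ⟨n, by linarith⟩
  choose v hv using h
  refine ⟨v, ?_⟩
  ext i
  simp [rep, lat, hv i]

/-- every point of the plane can be moved to a fixed ball by an integer vector -/
lemma exists_lat (x : Plane) : ∃ v : Fin 2 → ℤ, ‖x + lat v‖ ≤ 2 := by
  refine ⟨fun i => -⌊x i⌋, ?_⟩
  have h := plane_norm_le (x + lat (fun i => -⌊x i⌋)) (s := 1) (by
    intro i
    have e : (x + lat (fun i => -⌊x i⌋)) i = Int.fract (x i) := by
      simp [lat, Int.fract, sub_eq_add_neg]
    rw [e, abs_of_nonneg (Int.fract_nonneg _)]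
    exact (Int.fract_lt_one _).le)
  linarith

/-- a periodic continuous function is bounded -/
lemma periodic_bounded {W : Type*} [NormedAddCommGroup W] {φ : Plane → W} (hφ : Continuous φ)
    (hper : ∀ x v, φ (x + lat v) = φ x) : ∃ K : ℝ, ∀ x, ‖φ x‖ ≤ K := by
  obtain ⟨K, hK⟩ := (isCompact_closedBall (0 : Plane) 2).exists_bound_of_continuousOn
    hφ.continuousOn
  refine ⟨K, fun x => ?_⟩
  obtain ⟨v, hv⟩ := exists_lat x
  rw [← hper x v]
  exact hK _ (by simpa using hv)

/-- a periodic continuous function is uniformly continuous -/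
lemma periodic_uniform {W : Type*} [NormedAddCommGroup W] {φ : Plane → W} (hφ : Continuous φ)
    (hper : ∀ x v, φ (x + lat v) = φ x) (η : ℝ) (hη : 0 < η) :
    ∃ δ > 0, ∀ x y, ‖x - y‖ ≤ δ → ‖φ x - φ y‖ ≤ η := by
  have h1 := (isCompact_closedBall (0 : Plane) 3).uniformContinuousOn_of_continuous
    hφ.continuousOn
  rw [Metric.uniformContinuousOn_iff_le] at h1
  obtain ⟨δ, hδ, h⟩ := h1 η hη
  refine ⟨min δ 1, by positivity, fun x y hxy => ?_⟩
  obtain ⟨v, hv⟩ := exists_lat x
  rw [← hper x v, ← hper y v, ← dist_eq_norm]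
  apply h
  · simp only [Metric.mem_closedBall, dist_zero_right]
    linarith
  · simp only [Metric.mem_closedBall, dist_zero_right]
    calc ‖y + lat v‖ = ‖(x + lat v) - (x - y)‖ := by congr 1; abel
      _ ≤ 2 + 1 := (norm_sub_le _ _).trans (add_le_add hv (hxy.trans (min_le_right _ _)))
      _ = 3 := by norm_num
  · rw [dist_eq_norm]
    have e : x + lat v - (y + lat v) = x - y := by abel
    rw [e]
    exact hxy.trans (min_le_left _ _)

/-- a function on the base whose lift is continuous is continuous -/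
lemma IsCover.continuous_of_lift {V X : Type*} [NormedAddCommGroup V] [MetricSpace X] {p : V → X}
    {κ r : ℝ} (hp : IsCover p κ r) {φ' : X → ℝ} {φ : V → ℝ} (hφ : Continuous φ)
    (h : ∀ a, φ' (p a) = φ a) : Continuous φ' := by
  rw [Metric.continuous_iff]
  intro y0 η hη
  obtain ⟨a, rfl⟩ := hp.surj y0
  obtain ⟨δ, hδ, hd⟩ := Metric.continuous_iff.1 hφ a η hη
  have hκ : 0 < κ := by linarith [hp.one_le]
  refine ⟨δ / κ, by positivity, fun y hy => ?_⟩
  obtain ⟨b, rfl, hb⟩ := hp.lift a y
  rw [h, h]
  apply hd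
  rw [dist_eq_norm]
  refine lt_of_le_of_lt hb ?_
  rw [lt_div_iff₀ hκ] at hy
  linarith

/-- translation by the point `(1/2, 1/2)` -/
noncomputable def half (y : Torus) : Torus := fun i => y i + ((1 / 2 : ℝ) : UnitAddCircle)

lemma half_dist (y : Torus) : 1 / 2 ≤ dist (half y) y := by
  have h1 := dist_le_pi_dist (half y) y 0
  have h2 : dist (half y 0) (y 0) = 1 / 2 := by
    rw [dist_eq_norm]
    unfold half
    rw [add_sub_cancel_left, circle_norm]
    have : round (1 / 2 : ℝ) = 1 := by norm_num [round_eq]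
    rw [this]
    norm_num
  linarith

end Pool.Agent.H576R3.PR
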