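import Pool.Agent.H576R3.EntDefs

set_option autoImplicit false

open scoped ContDiff Topology
open MeasureTheory Filter

namespace Pool.Agent.H576R3.PR

/-- The plane `ℝ²`, universal cover of the torus, with its Euclidean norm. -/
abbrev Plane : Type := EuclideanSpace ℝ (Fin 2)

/-- The torus `𝕋² = ℝ²/ℤ²`; its `volume` is Lebesgue (Haar) measure. -/
abbrev Torus : Type := Fin 2 → UnitAddCircle

/-- The covering map `ℝ² → 𝕋²`. -/
def proj (x : Plane) : Torus := fun i => ((x i : ℝ) : UnitAddCircle)

/-- A chosen point of the plane above a point of the torus. -/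
noncomputable def rep (y : Torus) : Plane := WithLp.toLp 2 (fun i => Quotient.out (y i))

/-- An integer vector as a point of the plane. -/
noncomputable def lat (v : Fin 2 → ℤ) : Plane := WithLp.toLp 2 (fun i => (v i : ℝ))

/-- The translate of a point of the plane by an integer vector. -/
noncomputable def translate (x : Plane) (v : Fin 2 → ℤ) : Plane := x + lat v

/-- The integer matrix `L`, of determinant `1` or `-1`, has no eigenvalue of modulus one (so that it
induces an Anosov automorphism of the torus), and `l` is its eigenvalue of larger modulus, so that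
`log ‖l‖` is the topological entropy of this automorphism. -/
structure IsHyperbolicMatrix (L : Matrix (Fin 2) (Fin 2) ℤ) (l : ℂ) : Prop where
  isUnit : IsUnit L
  norm_ne_one : ∀ z : ℂ, (L.map fun n => (n : ℂ)).charpoly.IsRoot z → ‖z‖ ≠ 1
  isRoot : (L.map fun n => (n : ℂ)).charpoly.IsRoot l
  one_lt : 1 < ‖l‖

/-- A field of bounded linear operators of `V`, one for each point of `V`. -/
abbrev OpField (V : Type*) [NormedAddCommGroup V] [NormedSpace ℝ V] : Type _ := V → V →L[ℝ] V

section splitting

variable {V : Type*} [NormedAddCommGroup V] [NormedSpace ℝ V]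

/-- The derivative of `F` at `x` applied to the vector `v`. -/
noncomputable def D (F : V → V) (x v : V) : V := fderiv ℝ F x v

/-- The stable space `E_s(x)`: the range of the projection `P x`. -/
def Es (P : OpField V) (x : V) : Submodule ℝ V := (P x).range

/-- The unstable space `E_u(x)`: the kernel of the projection `P x`. -/
def Eu (P : OpField V) (x : V) : Submodule ℝ V := (P x).ker

/-- Continuity, projection and invariance properties of a splitting: for each `x`, `P x` is the
projection onto the line `E_s(x)` along the line `E_u(x)`, it depends continuously on `x`, and the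
derivative of `F` maps `E_s(x)` to `E_s(F x)` and `E_u(x)` to `E_u(F x)`. -/
structure IsInvariantSplitting (F : V → V) (P : OpField V) : Prop where
  cont : Continuous P
  idem : ∀ x v, P x (P x v) = P x v
  line_u : ∀ x, Module.finrank ℝ (Eu P x) = 1
  line_s : ∀ x, Module.finrank ℝ (Es P x) = 1
  inv : ∀ x v, P (F x) (D F x v) = D F x (P x v)

/-- The splitting is hyperbolic: `D F^n` contracts the vectors of `E_s` and expands those of `E_u`,
exponentially and uniformly. -/
def IsHyperbolic (F : V → V) (P : OpField V) : Prop :=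
  ∃ C r : ℝ, 0 < C ∧ 0 < r ∧ r < 1 ∧ ∀ (n : ℕ) (x : V),
    (∀ v ∈ Es P x, ‖D F^[n] x v‖ ≤ C * r ^ n * ‖v‖) ∧
    (∀ v ∈ Eu P x, ‖v‖ ≤ C * r ^ n * ‖D F^[n] x v‖)

/-- The derivative `D F(x)` restricted to `E_u(x)`. -/
noncomputable def restricted (F : V → V) (P : OpField V) (x : V) : Eu P x →L[ℝ] V :=
  (fderiv ℝ F x) ∘L (Eu P x).subtypeL

/-- `log ‖D F(x) restricted to E_u(x)‖`. -/
noncomputable def logExpansion (F : V → V) (P : OpField V) (x : V) : ℝ :=
  Real.log ‖restricted F P x‖

/-- an invariant hyperbolic splitting -/
structure IsHyperbolicSplitting (F : V → V) (P : OpField V) : Prop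
    extends IsInvariantSplitting F P where
  hyp : IsHyperbolic F P

variable {F : V → V} {P : OpField V}

lemma IsHyperbolicSplitting.continuous (H : IsHyperbolicSplitting F P) : Continuous P := H.cont

lemma IsHyperbolicSplitting.idempotent (H : IsHyperbolicSplitting F P) :
    ∀ x v, P x (P x v) = P x v := H.idem

lemma IsHyperbolicSplitting.unstable_line (H : IsHyperbolicSplitting F P) :
    ∀ x, Module.finrank ℝ (P x).ker = 1 := H.line_u

lemma IsHyperbolicSplitting.invariant (H : IsHyperbolicSplitting F P) :
    ∀ x v, P (F x) (fderiv ℝ F x v) = fderiv ℝ F x (P x v) := H.inv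

lemma IsHyperbolicSplitting.hyperbolic (H : IsHyperbolicSplitting F P) :
    ∃ C r : ℝ, 0 < C ∧ 0 < r ∧ r < 1 ∧ ∀ (n : ℕ) (x : V),
    (∀ v ∈ (P x).range, ‖fderiv ℝ F^[n] x v‖ ≤ C * r ^ n * ‖v‖) ∧
    (∀ v ∈ (P x).ker, ‖v‖ ≤ C * r ^ n * ‖fderiv ℝ F^[n] x v‖) := H.hyp

end splitting

/-- `F` is a smooth lift to the plane of the map `f` of the torus. -/
def IsSmoothLift (f : Torus → Torus) (F : Plane → Plane) : Prop :=
  ContDiff ℝ ∞ F ∧ ∀ x, proj (F x) = f (proj x)

/-- `f` preserves Lebesgue measure on the torus. -/
def IsAreaPreserving (f : Torus → Torus) : Prop := MeasurePreserving f volume volume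

/-- A field of operators on the plane is `ℤ²`-periodic, that is, it comes from the torus. -/
def IsPeriodic (P : OpField Plane) : Prop := ∀ x v, P (translate x v) = P x

/-- `f` is a smooth area-preserving Anosov diffeomorphism of the torus homotopic to the
automorphism given by the integer matrix `L`; `F` is a lift of `f` to the plane and `P` is its
hyperbolic splitting (lifted to the plane). -/
structure IsAreaPreservingAnosov (L : Matrix (Fin 2) (Fin 2) ℤ) (f : Torus ≃ₜ Torus)
    (F : Plane → Plane) (P : OpField Plane) : Prop where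
  smooth_lift : IsSmoothLift f F
  smooth_inverse : ∃ F' : Plane → Plane, IsSmoothLift f.symm F'
  homotopic : ∀ x v, F (translate x v) = translate (F x) (L.mulVec v)
  splitting : IsHyperbolicSplitting F P
  periodic : IsPeriodic P
  area : IsAreaPreserving f

/-- The pressure of the potential `φ` for the map `f`: the supremum of `h_μ(f) + ∫ φ dμ` over the
`f`-invariant Borel probability measures `μ`. -/
noncomputable def pressure {X : Type*} [MeasurableSpace X] (f : X → X) (φ : X → ℝ) : EReal :=
  ⨆ (μ : Measure X) (_ : IsProbabilityMeasure μ) (_ : MeasurePreserving f μ μ),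
    Defs.ksEntropy μ f + ((∫ x, φ x ∂μ : ℝ) : EReal)

/-- The geometric potential `φ_t = -t log ‖D f restricted to E_u‖` on the torus. -/
noncomputable def geometricPotential (F : Plane → Plane) (P : OpField Plane)
    (t : ℝ) (y : Torus) : ℝ :=
  -t * logExpansion F P (rep y)

/-- The conditions imposed in the question on a candidate pressure function `p`, where `h` is the
topological entropy of the automorphism. -/
structure IsCandidate (h : ℝ) (p : ℝ → ℝ) : Prop where
  convex : StrictConvexOn ℝ Set.univ p
  analytic : ∀ t, AnalyticAt ℝ p t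
  zero : p 0 = h
  one : p 1 = 0
  deriv_zero : deriv p 0 < -h
  deriv_one_gt : -h < deriv p 1
  deriv_one_lt : deriv p 1 < 0
  asymptote_top : ∃ a b : ℝ, a < 0 ∧ 0 ≤ b ∧ Tendsto (fun t => p t - (a * t + b)) atTop (𝓝 0)
  asymptote_bot : ∃ a b : ℝ, 0 ≤ b ∧ Tendsto (fun t => p t - (a * t + b)) atBot (𝓝 0)

end Pool.Agent.H576R3.PR
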