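import Pool.Agent.H576R3.EntDefs
import Pool.Agent.H576R3.PR.Block

set_option autoImplicit false

open scoped Topology ENNReal
open MeasureTheory Filter Finset
open Pool.Agent.H576R3.Defs (shannon itin ksEntropy)

namespace Pool.Agent.H576R3.PR

lemma negMulLog_sum_le {ι : Type*} (s : Finset ι) (p : ι → ℝ) (hp : ∀ i ∈ s, 0 ≤ p i) :
    Real.negMulLog (∑ i ∈ s, p i) ≤ ∑ i ∈ s, Real.negMulLog (p i) := by
  have e : Real.negMulLog (∑ i ∈ s, p i) = ∑ i ∈ s, -(p i * Real.log (∑ j ∈ s, p j)) := by
    rw [Real.negMulLog, sum_neg_distrib, ← sum_mul]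
    ring
  rw [e]
  apply sum_le_sum
  intro i hi
  rw [Real.negMulLog]
  rcases (hp i hi).eq_or_lt with h | h
  · simp [← h]
  · have h1 : p i ≤ ∑ j ∈ s, p j := single_le_sum hp hi
    have h2 := Real.log_le_log h h1
    have h3 := mul_le_mul_of_nonneg_left h2 h.le
    linarith

lemma shannon_comp_le {X : Type*} [MeasurableSpace X] {ι κ : Type*} [Fintype ι] [Fintype κ]
    (μ : Measure X) [IsFiniteMeasure μ] (Q : X → ι) (hQ : ∀ i, MeasurableSet (Q ⁻¹' {i}))
    (h : ι → κ) : shannon μ (fun x => h (Q x)) ≤ shannon μ Q := by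
  classical
  unfold shannon
  have e : ∀ j, μ.real ((fun x => h (Q x)) ⁻¹' {j}) =
      ∑ i with h i = j, μ.real (Q ⁻¹' {i}) := by
    intro j
    rw [← measureReal_biUnion_finset]
    · congr 1
      ext x
      simp
    · intro a _ b _ hab
      exact Disjoint.preimage _ (by simpa using hab)
    · intro b _
      exact hQ b
  simp_rw [e]
  calc ∑ j, Real.negMulLog (∑ i with h i = j, μ.real (Q ⁻¹' {i})) ≤
      ∑ j, ∑ i with h i = j, Real.negMulLog (μ.real (Q ⁻¹' {i})) :=
        sum_le_sum fun j _ => negMulLog_sum_le _ _ fun i _ => measureReal_nonneg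
    _ = ∑ i, Real.negMulLog (μ.real (Q ⁻¹' {i})) := sum_fiberwise _ _ _

/-- the uniform probability measure -/
noncomputable def uq (q : ℕ) : Measure (Fin q) := (q : ℝ≥0∞)⁻¹ • Measure.count

instance (q : ℕ) [NeZero q] : IsProbabilityMeasure (uq q) := by
  constructor
  unfold uq
  rw [Measure.smul_apply, Measure.count_univ, smul_eq_mul]
  simp only [ENat.card_eq_coe_fintype_card, Fintype.card_fin]
  exact ENNReal.inv_mul_cancel (by exact_mod_cast NeZero.ne q) (by finiteness)

lemma uq_singleton (q : ℕ) (j : Fin q) : uq q {j} = (q : ℝ≥0∞)⁻¹ := by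
  unfold uq
  rw [Measure.smul_apply, Measure.count_singleton, smul_eq_mul, mul_one]

/-- the Bernoulli measure -/
noncomputable def bern (q : ℕ) : Measure (ℤ → Fin q) := Measure.infinitePi fun _ => uq q

instance (q : ℕ) [NeZero q] : IsProbabilityMeasure (bern q) := by
  unfold bern; infer_instance

lemma measurable_shift {q : ℕ} : Measurable (shift (q := q)) := by
  unfold shift
  fun_prop

lemma bern_shift (q : ℕ) [NeZero q] : (bern q).map shift = bern q := by
  unfold bern
  apply Measure.eq_infinitePi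
  intro s t ht
  classical
  rw [Measure.map_apply measurable_shift (MeasurableSet.pi s.countable_toSet fun i _ => ht i)]
  have e : shift ⁻¹' (Set.pi (s : Set ℤ) t) =
      Set.pi ((s.map (addRightEmbedding 1) : Finset ℤ) : Set ℤ) (fun i => t (i - 1)) := by
    ext ω
    simp only [Set.mem_preimage, Set.mem_pi, SetLike.mem_coe, Finset.mem_map, addRightEmbedding_apply]
    constructor
    · rintro h _ ⟨i, hi, rfl⟩
      rw [add_sub_cancel_right]
      exact h i hi
    · intro h i hi
      have := h (i + 1) ⟨i, hi, rfl⟩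
      rwa [add_sub_cancel_right] at this
  rw [e, Measure.infinitePi_pi _ (fun i _ => ht _), Finset.prod_map]
  apply prod_congr rfl
  intro i _
  have h1 : (addRightEmbedding (1 : ℤ)) i - 1 = i := add_sub_cancel_right i 1
  rw [h1]

lemma shannon_bern (q : ℕ) [NeZero q] (l : ℕ) :
    shannon (bern q) (fun ω => fun i : Fin l => ω ((i : ℕ) + 1)) = l * Real.log q := by
  classical
  have hq : (q : ℝ) ≠ 0 := by exact_mod_cast NeZero.ne q
  have e : ∀ w : Fin l → Fin q,
      (bern q).real ((fun ω => fun i : Fin l => ω (((i : ℕ) : ℤ) + 1)) ⁻¹' {w}) =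
        ((q : ℝ)⁻¹) ^ l := by
    intro w
    let em : Fin l ↪ ℤ := ⟨fun i => ((i : ℕ) : ℤ) + 1, fun a b h => by
      simp only [add_left_inj, Nat.cast_inj] at h
      exact Fin.ext h⟩
    let w' : ℤ → Fin q := fun i => if h : (i - 1).toNat < l then w ⟨(i - 1).toNat, h⟩ else 0
    have hw' : ∀ i : Fin l, w' (((i : ℕ) : ℤ) + 1) = w i := by
      intro i
      simp [w']
    have e1 : ((fun ω => fun i : Fin l => ω (((i : ℕ) : ℤ) + 1)) ⁻¹' {w} : Set (ℤ → Fin q)) =
        Set.pi ((univ.map em : Finset ℤ) : Set ℤ) (fun i => {w' i}) := by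
      ext ω
      simp only [Set.mem_preimage, Set.mem_singleton_iff, Set.mem_pi, SetLike.mem_coe, Finset.mem_map,
        mem_univ, true_and]
      constructor
      · rintro h _ ⟨i, rfl⟩
        have := congrFun h i
        change ω (((i : ℕ) : ℤ) + 1) = w' (((i : ℕ) : ℤ) + 1)
        rw [hw']
        exact this
      · intro h
        funext i
        have := h _ ⟨i, rfl⟩
        change ω (((i : ℕ) : ℤ) + 1) = w' (((i : ℕ) : ℤ) + 1) at this
        rw [hw'] at this
        exact this
    rw [e1, measureReal_def, bern, Measure.infinitePi_pi _ (fun i _ => measurableSet_singleton _)]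
    simp only [uq_singleton, prod_const, card_map, card_univ, Fintype.card_fin]
    simp
  unfold shannon
  simp_rw [e]
  rw [sum_const, card_univ, Fintype.card_fun, Fintype.card_fin, Fintype.card_fin, nsmul_eq_mul,
    Real.negMulLog, Real.log_pow, Real.log_inv]
  push_cast
  rw [inv_pow]
  field_simp

end Pool.Agent.H576R3.PR
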