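import Pool.Agent.H576R3.PR.Horse
import Pool.Agent.H576R3.PR.Chain

set_option autoImplicit false

open scoped Topology ENNReal
open MeasureTheory Filter Finset
open Pool.Agent.H576R3.Defs (shannon itin ksEntropy)

namespace Pool.Agent.H576R3.PR

lemma bs_mul {X : Type*} [MetricSpace X] (f : X → X) (ψ : X → ℝ) (m n : ℕ) (x : X) :
    bs f ψ x (m * n) = bs f^[m] (fun y => bs f ψ y m) x n := by
  induction n with
  | zero => simp [bs]
  | succ n ih =>
    rw [Nat.mul_succ, bs_add, bs_add, ih]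
    congr 1
    simp [bs, ← Function.iterate_mul]

lemma exists_net {X : Type*} [MetricSpace X] [CompactSpace X] [Nonempty X] [MeasurableSpace X]
    [BorelSpace X] {d : ℝ} (hd : 0 < d) :
    ∃ (k : ℕ) (e : Fin k → X) (P : X → Fin k), Measurable P ∧ ∀ y, dist y (e (P y)) ≤ d := by
  obtain ⟨N, hN⟩ : ∃ N : ℕ, ∀ y : X, ∃ n ≤ N, dist y (TopologicalSpace.denseSeq X n) < d := by
    have hcov : (Set.univ : Set X) ⊆ ⋃ n, Metric.ball (TopologicalSpace.denseSeq X n) d := by
      intro y _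
      obtain ⟨n, hn⟩ := (TopologicalSpace.denseRange_denseSeq X).exists_dist_lt y hd
      exact Set.mem_iUnion.2 ⟨n, hn⟩
    obtain ⟨t, ht⟩ := isCompact_univ.elim_finite_subcover _ (fun n => Metric.isOpen_ball) hcov
    refine ⟨t.sup id, fun y => ?_⟩
    obtain ⟨n, hn⟩ := Set.mem_iUnion.1 (ht (Set.mem_univ y))
    obtain ⟨hnt, hyn⟩ := Set.mem_iUnion.1 hn
    exact ⟨n, Finset.le_sup (f := id) hnt, hyn⟩
  let e0 := TopologicalSpace.denseSeq X
  have hle : ∀ y, SimpleFunc.nearestPtInd e0 N y < N + 1 := fun y =>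
    Nat.lt_succ_of_le (SimpleFunc.nearestPtInd_le e0 N y)
  refine ⟨N + 1, fun i => e0 i, fun y => ⟨SimpleFunc.nearestPtInd e0 N y, hle y⟩, ?_, ?_⟩
  · have h1 : Measurable (SimpleFunc.nearestPtInd e0 N) := SimpleFunc.measurable _
    apply measurable_to_countable'
    intro i
    have h2 : (fun y => (⟨SimpleFunc.nearestPtInd e0 N y, hle y⟩ : Fin (N + 1))) ⁻¹' {i} =
        (SimpleFunc.nearestPtInd e0 N) ⁻¹' {(i : ℕ)} := by
      ext y
      simp [Fin.ext_iff]
    rw [h2]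
    exact h1 (measurableSet_singleton _)
  · intro y
    obtain ⟨n, hn, hyn⟩ := hN y
    have h1 := SimpleFunc.edist_nearestPt_le e0 y hn
    rw [edist_dist, edist_dist] at h1
    have h2 := (ENNReal.ofReal_le_ofReal_iff dist_nonneg).1 h1
    have h3 : dist y (SimpleFunc.nearestPt e0 N y) ≤ d := by
      rw [dist_comm]
      refine h2.trans ?_
      rw [dist_comm]
      exact hyn.le
    exact h3

theorem horseshoes {X : Type*} [MetricSpace X] [CompactSpace X] [ConnectedSpace X]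
    [MeasurableSpace X] [BorelSpace X] (μ : Measure X) [IsFiniteMeasure μ] [μ.IsOpenPosMeasure]
    (f : X ≃ₜ X) (hμ : MeasurePreserving f μ μ) (ψ : X → ℝ) (hψ : Continuous ψ)
    (star : X → X) {d : ℝ} (hd0 : 0 < d) (hd : ∀ y, d ≤ dist (star y) y) (m : ℕ) (hm : 0 < m)
    {δ C : ℝ} (H : IsExp (⇑(f ^ m)) (fun x => bs f ψ x m) δ C) :
    ∃ (N : ℕ) (C₁ : ℝ), 0 < N ∧ 0 ≤ C₁ ∧ ∀ q : ℕ, 0 < q → ∀ x, ∃ ν : Measure X,
      IsProbabilityMeasure ν ∧ MeasurePreserving f ν ν ∧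
      ((Real.log q / (N * (2 * q + 1) : ℕ) : ℝ) : EReal) ≤ ksEntropy ν f ∧
      ∫ y, ψ y ∂ν ≤ (bs f ψ x (N * (2 * q)) + C₁) / (N * (2 * q + 1) : ℕ) := by
  set g : X ≃ₜ X := f ^ m with hgdef
  have hgf : (g : X → X) = f^[m] := by
    funext y
    rw [hgdef, ← zpow_natCast, zpow_nat_apply]
  have hδ := H.δpos
  obtain ⟨δ', hδ'0, hδ'1, hδ'2⟩ : ∃ δ' : ℝ, 0 < δ' ∧ 2 * δ' ≤ δ ∧ δ' ≤ d / 8 := by
    refine ⟨min (δ / 2) (d / 8), by positivity, ?_, min_le_right _ _⟩
    have := min_le_left (δ / 2) (d / 8)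
    linarith
  obtain ⟨ε, hε, hcode⟩ := H.coding hδ'0 hδ'1
  have hgμ : MeasurePreserving g μ μ := by
    rw [hgf]
    exact hμ.iterate m
  obtain ⟨M, hM, hmix⟩ := chain_mixing g μ hgμ hε
  obtain ⟨S, hS⟩ : ∃ S, ∀ x, |ψ x| ≤ S := by
    obtain ⟨S, hS⟩ := (isCompact_univ.image (hψ.abs)).isBounded.bddAbove
    exact ⟨S, fun x => hS ⟨x, trivial, rfl⟩⟩
  have hS0 : 0 ≤ S := by
    obtain ⟨x⟩ := (inferInstance : Nonempty X)
    exact (abs_nonneg _).trans (hS x)
  have hSm : ∀ x, |bs f ψ x m| ≤ m * S := fun x => abs_bs_le f ψ hS x m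
  obtain ⟨k, e, P, hP, hPe⟩ := exists_net (X := X) (d := d / 8) (by positivity)
  refine ⟨m * M, 2 * C + 5 * M * (m * S), by positivity, ?_, ?_⟩
  · have := H.Cpos
    positivity
  intro q hq x
  have : NeZero q := ⟨hq.ne'⟩
  choose c hc using fun j : Fin q => exists_block g hε star x M q j j.2 hmix
  have hB : 0 < 2 * M * q + M := by positivity
  obtain ⟨Φ, hΦc, hΦd, hΦu⟩ := hcode (ℤ → Fin q) (fun ω k => glue c (2 * M * q + M) ω k)
    (fun k => glue_continuous c _ k) (fun ω k => glue_chain c _ hB (fun j => (hc j).ch) ω k)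
  have hshg : ∀ ω, g^[2 * M * q + M] (Φ ω) = Φ (shift ω) := by
    intro ω
    apply hΦu
    intro k
    rw [← zpow_nat_apply, ← zpow_add_apply', glue_shift c _ hB]
    exact hΦd ω _
  have hgi : ∀ n y, g^[n] y = f^[m * n] y := by
    intro n y
    rw [hgf, Function.iterate_mul]
  have hsh : ∀ ω, f^[m * (2 * M * q + M)] (Φ ω) = Φ (shift ω) := by
    intro ω
    rw [← hgi]
    exact hshg ω
  have hnear : ∀ ω, ∀ i ≤ 2 * M * q + M, dist (g^[i] (Φ ω)) (c (ω 0) i) ≤ δ' := by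
    intro ω i hi
    rcases hi.lt_or_eq with h | h
    · have := hΦd ω i
      rw [zpow_nat_apply, glue_nat c _ ω h] at this
      exact this
    · rw [h]
      have h1 := hΦd ω ((2 * M * q + M : ℕ) : ℤ)
      rw [zpow_nat_apply] at h1
      have h2 : glue c (2 * M * q + M) ω ((2 * M * q + M : ℕ) : ℤ) = c (ω 0) (2 * M * q + M) := by
        have h3 := glue_shift c (2 * M * q + M) hB ω 0
        rw [zero_add] at h3
        rw [← h3]
        have h4 := glue_nat c (2 * M * q + M) (shift ω) hB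
        rw [Nat.cast_zero] at h4
        rw [h4, (hc _).ch.1, (hc _).ch.2.1]
      rw [h2] at h1
      exact h1
  have hBm : 0 < m * (2 * M * q + M) := by positivity
  obtain ⟨D, hD⟩ := exists_decode hc hd hd0 e P hPe
  let D' : (Fin (m * (2 * M * q + M)) → Fin k) → Fin q := fun w =>
    D (fun l => w ⟨m * (2 * M * l + M), by
      apply Nat.mul_lt_mul_of_pos_left _ hm
      have h1 : (l : ℕ) + 1 ≤ q := l.2
      have h2 := Nat.mul_le_mul_left (2 * M) h1
      have h3 : 2 * M * ((l : ℕ) + 1) = 2 * M * l + 2 * M := by ring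
      omega⟩)
  have hD' : ∀ ω, D' (fun i => P (f^[i] (Φ ω))) = ω 0 := by
    intro ω
    have h1 := hD (ω 0) (Φ ω) (fun i hi => (hnear ω i hi).trans hδ'2)
    change D (fun l : Fin q => P (f^[m * (2 * M * l + M)] (Φ ω))) = ω 0
    simp_rw [← hgi]
    exact h1
  have hcost : ∀ ω, ∑ i ∈ range (m * (2 * M * q + M)), ψ (f^[i] (Φ ω)) ≤
      bs f ψ x (m * M * (2 * q)) + (2 * C + 5 * M * (m * S)) := by
    intro ω
    have h1 := (hc (ω 0)).cost (ω 0).2 H hSm (Φ ω) (fun i hi => (hnear ω i hi).trans (by linarith))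
    rw [hgf, ← bs_mul, ← bs_mul] at h1
    have h2 : m * (2 * M * q) = m * M * (2 * q) := by ring
    rw [h2] at h1
    exact h1
  have e1 : m * (2 * M * q + M) = m * M * (2 * q + 1) := by ring
  refine ⟨avg q (m * (2 * M * q + M)) f Φ, avg_prob hBm f.measurable hΦc.measurable,
    avg_invariant hBm f.measurable hΦc.measurable hsh, ?_, ?_⟩
  · have := ksEntropy_avg hBm f.measurable hΦc.measurable hsh hP D' hD'
    rw [← e1]
    exact this
  · have := integral_avg_le hBm f.measurable hΦc.measurable hψ.measurable hS hcost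
    rw [← e1]
    exact this

end Pool.Agent.H576R3.PR
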