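import Pool.Agent.H576R3.PR.Defs

set_option autoImplicit false

open scoped Topology
open Filter

namespace Pool.Agent.H576R3.PR

/-- the basic function `log (1 + exp (-t - exp t))` -/
noncomputable def R (t : ℝ) : ℝ := Real.log (1 + Real.exp (-t - Real.exp t))

/-- its derivative -/
noncomputable def R1 (t : ℝ) : ℝ :=
  -((1 + Real.exp t) * Real.exp (-t - Real.exp t)) / (1 + Real.exp (-t - Real.exp t))

lemma R_pos (t : ℝ) : 0 < R t :=
  Real.log_pos (by have := Real.exp_pos (-t - Real.exp t); linarith)

lemma R_le (t : ℝ) : R t ≤ Real.exp (-t - Real.exp t) := by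
  have h := Real.log_le_sub_one_of_pos (show (0 : ℝ) < 1 + Real.exp (-t - Real.exp t) by positivity)
  unfold R
  linarith

lemma hasDerivAt_R (t : ℝ) : HasDerivAt R (R1 t) t := by
  have h1 : HasDerivAt (fun t : ℝ => -t - Real.exp t) (-1 - Real.exp t) t :=
    ((hasDerivAt_id t).neg).sub (Real.hasDerivAt_exp t)
  have h2 := (h1.exp.const_add 1).log (by positivity)
  have h3 : (Real.exp (-t - Real.exp t) * (-1 - Real.exp t)) / (1 + Real.exp (-t - Real.exp t)) =
      R1 t := by
    unfold R1
    congr 1
    ring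
  rw [← h3]
  exact h2

lemma hasDerivAt_R1 (t : ℝ) : ∃ d : ℝ, 0 < d ∧ HasDerivAt R1 d t := by
  have h1 : HasDerivAt (fun t : ℝ => -t - Real.exp t) (-1 - Real.exp t) t :=
    ((hasDerivAt_id t).neg).sub (Real.hasDerivAt_exp t)
  have h2 := h1.exp
  have h3 := (((Real.hasDerivAt_exp t).const_add 1).mul h2).neg.div (h2.const_add 1)
    (by positivity)
  refine ⟨_, ?_, h3⟩
  have hyu : Real.exp t * Real.exp (-t - Real.exp t) < 1 := by
    rw [← Real.exp_add, Real.exp_lt_one_iff]
    have := Real.exp_pos t
    linarith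
  have hy := Real.exp_pos t
  have hu := Real.exp_pos (-t - Real.exp t)
  set y := Real.exp t
  set u := Real.exp (-t - y)
  apply div_pos _ (by positivity)
  have : (-(y * u + (1 + y) * (u * (-1 - y)))) * (1 + u) - (-((1 + y) * u)) * (u * (-1 - y)) =
      u * (1 + y + y ^ 2 - y * u) := by ring
  simp only [Pi.mul_apply, Pi.neg_apply, Pi.add_apply] at *
  rw [this]
  apply mul_pos hu
  nlinarith

lemma R1_neg (t : ℝ) : R1 t < 0 := by
  unfold R1
  apply div_neg_of_neg_of_pos
  · have : 0 < (1 + Real.exp t) * Real.exp (-t - Real.exp t) := by positivity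
    linarith
  · positivity

lemma deriv_R : deriv R = R1 := funext fun t => (hasDerivAt_R t).deriv

lemma strictConvexOn_R : StrictConvexOn ℝ Set.univ R := by
  apply strictConvexOn_univ_of_deriv2_pos
  · exact continuous_iff_continuousAt.2 fun t => (hasDerivAt_R t).continuousAt
  · intro t
    obtain ⟨d, hd, h⟩ := hasDerivAt_R1 t
    have : deriv^[2] R t = deriv (deriv R) t := rfl
    rw [this, deriv_R, h.deriv]
    exact hd

lemma analyticAt_R (t : ℝ) : AnalyticAt ℝ R t := by
  unfold R
  apply AnalyticAt.log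
  · apply AnalyticAt.add analyticAt_const
    apply AnalyticAt.rexp
    exact (analyticAt_id.neg).sub (analyticAt_rexp)
  · positivity

lemma tendsto_R_top : Tendsto R atTop (𝓝 0) := by
  apply squeeze_zero (fun t => (R_pos t).le) (g := fun t => Real.exp (-t))
  · intro t
    refine (R_le t).trans (Real.exp_le_exp.2 ?_)
    have := Real.exp_pos t
    linarith
  · exact Real.tendsto_exp_neg_atTop_nhds_zero

lemma tendsto_R_bot : Tendsto (fun t => R t + t) atBot (𝓝 0) := by
  have h : ∀ t, R t + t = Real.log (Real.exp t + Real.exp (-Real.exp t)) := by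
    intro t
    have h1 : Real.exp t + Real.exp (-Real.exp t) =
        Real.exp t * (1 + Real.exp (-t - Real.exp t)) := by
      rw [mul_add, mul_one, ← Real.exp_add]
      congr 2
      ring
    rw [h1, Real.log_mul (Real.exp_pos t).ne' (by positivity), Real.log_exp]
    unfold R
    ring
  simp_rw [h]
  have h2 : Tendsto (fun t : ℝ => Real.exp t + Real.exp (-Real.exp t)) atBot
      (𝓝 (0 + Real.exp (-0))) := by
    apply Tendsto.add Real.tendsto_exp_atBot
    exact (Real.continuous_exp.tendsto _).comp (Real.tendsto_exp_atBot.neg)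
  have h3 := h2.log (by simp)
  simpa using h3

/-- the candidate -/
noncomputable def cand (h : ℝ) (t : ℝ) : ℝ := h / R 0 * (R t - R 1 * t)

lemma hasDerivAt_cand (h t : ℝ) : HasDerivAt (cand h) (h / R 0 * (R1 t - R 1)) t := by
  have := ((hasDerivAt_R t).sub ((hasDerivAt_id t).const_mul (R 1))).const_mul (h / R 0)
  simpa [cand] using! this

lemma strictConvexOn_cand {h : ℝ} (hh : 0 < h) : StrictConvexOn ℝ Set.univ (cand h) := by
  have hk : 0 < h / R 0 := div_pos hh (R_pos 0)
  refine ⟨convex_univ, ?_⟩
  intro x _ y _ hxy a b ha hb hab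
  have := strictConvexOn_R.2 (Set.mem_univ x) (Set.mem_univ y) hxy ha hb hab
  simp only [smul_eq_mul, cand] at *
  have e : a * (h / R 0 * (R x - R 1 * x)) + b * (h / R 0 * (R y - R 1 * y)) =
      h / R 0 * ((a * R x + b * R y) - R 1 * (a * x + b * y)) := by ring
  rw [e]
  apply mul_lt_mul_of_pos_left _ hk
  linarith

theorem isCandidate_cand {h : ℝ} (hh : 0 < h) : IsCandidate h (cand h) := by
  have hR0 := R_pos 0
  have hR1 := R_pos 1
  have hk : 0 < h / R 0 := div_pos hh hR0
  have z : cand h 0 = h := by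
    unfold cand
    field_simp
    ring
  have o : cand h 1 = 0 := by
    unfold cand
    ring
  have slope : (cand h 1 - cand h 0) / (1 - 0) = -h := by rw [z, o]; ring
  refine ⟨strictConvexOn_cand hh, ?_, z, o, ?_, ?_, ?_, ?_, ?_⟩
  · intro t
    unfold cand
    exact analyticAt_const.mul ((analyticAt_R t).sub (analyticAt_const.mul analyticAt_id))
  · have := (strictConvexOn_cand hh).deriv_lt_slope (Set.mem_univ 0) (Set.mem_univ 1) one_pos
      (hasDerivAt_cand h 0).differentiableAt
    rw [slope_def_field, slope] at this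
    exact this
  · have := (strictConvexOn_cand hh).slope_lt_deriv (Set.mem_univ 0) (Set.mem_univ 1) one_pos
      (hasDerivAt_cand h 1).differentiableAt
    rw [slope_def_field, slope] at this
    exact this
  · rw [(hasDerivAt_cand h 1).deriv]
    apply mul_neg_of_pos_of_neg hk
    have := R1_neg 1
    linarith
  · refine ⟨-(h / R 0 * R 1), 0, ?_, le_rfl, ?_⟩
    · have := mul_pos hk hR1
      linarith
    · have h1 := tendsto_R_top.const_mul (h / R 0)
      rw [mul_zero] at h1
      refine h1.congr fun t => ?_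
      unfold cand
      ring
  · refine ⟨-(h / R 0 * (1 + R 1)), 0, le_rfl, ?_⟩
    have h1 := tendsto_R_bot.const_mul (h / R 0)
    rw [mul_zero] at h1
    refine h1.congr fun t => ?_
    unfold cand
    ring

/-- the candidate approaches its asymptote faster than any exponential -/
theorem cand_fast {h : ℝ} (hh : 0 < h) (C D : ℝ) (hD : 0 < D) :
    ∃ t : ℝ, 0 ≤ t ∧ h / R 0 * R t < D * Real.exp (-(C * t)) := by
  have hk : 0 < h / R 0 := div_pos hh (R_pos 0)
  have h1 : Tendsto (fun t : ℝ => Real.exp (-t) * (Real.exp ((C : ℝ) * t - Real.exp t))) atTop (𝓝 0) := by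
    have h2 : Tendsto (fun t : ℝ => Real.exp t - (C : ℝ) * t) atTop atTop := by
      have h3 : Tendsto (fun t : ℝ => Real.exp t / t ^ 1) atTop atTop :=
        Real.tendsto_exp_div_pow_atTop 1
      have h4 : Tendsto (fun t : ℝ => t * (Real.exp t / t ^ 1 - C)) atTop atTop :=
        tendsto_id.atTop_mul_atTop₀ (tendsto_atTop_add_const_right _ _ h3)
      refine h4.congr' ?_
      filter_upwards [eventually_gt_atTop (0 : ℝ)] with t ht
      field_simp
    have h5 : Tendsto (fun t : ℝ => (C : ℝ) * t - Real.exp t) atTop atBot := by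
      refine (tendsto_neg_atTop_atBot.comp h2).congr fun t => ?_
      simp only [Function.comp]
      ring
    have h6 := Real.tendsto_exp_neg_atTop_nhds_zero.mul (Real.tendsto_exp_atBot.comp h5)
    simpa using! h6
  have h2 := h1.const_mul (h / R 0)
  rw [mul_zero] at h2
  have h3 := (h2.eventually (gt_mem_nhds hD)).and (eventually_ge_atTop (0 : ℝ))
  obtain ⟨t, ht, ht0⟩ := h3.exists
  refine ⟨t, ht0, ?_⟩
  have h4 : h / R 0 * R t ≤ h / R 0 * Real.exp (-t - Real.exp t) :=
    mul_le_mul_of_nonneg_left (R_le t) hk.le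
  have h5 : h / R 0 * Real.exp (-t - Real.exp t) * Real.exp (C * t) =
      h / R 0 * (Real.exp (-t) * Real.exp (C * t - Real.exp t)) := by
    rw [mul_assoc, ← Real.exp_add, ← Real.exp_add]
    congr 2
    ring
  rw [← h5] at ht
  have h6 : h / R 0 * Real.exp (-t - Real.exp t) < D * Real.exp (-(C * t)) := by
    rw [Real.exp_neg (C * t), ← div_eq_mul_inv, lt_div_iff₀ (Real.exp_pos _)]
    exact ht
  linarith

end Pool.Agent.H576R3.PR
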