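import Pool.Agent.H576R3.PR.Ent

set_option autoImplicit false

open scoped Topology ENNReal
open MeasureTheory Filter Finset
open Pool.Agent.H576R3.Defs (shannon itin ksEntropy)

namespace Pool.Agent.H576R3.PR

variable {X : Type*} [MeasurableSpace X]

/-- averaged measure -/
noncomputable def avg (q B : ℕ) (f : X → X) (Φ : (ℤ → Fin q) → X) : Measure X :=
  (B : ℝ≥0∞)⁻¹ • ∑ i ∈ range B, (bern q).map (fun ω => f^[i] (Φ ω))

lemma avg_apply {q B : ℕ} {f : X → X} (hf : Measurable f) {Φ : (ℤ → Fin q) → X}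
    (hΦ : Measurable Φ) {A : Set X} (hA : MeasurableSet A) :
    avg q B f Φ A = (B : ℝ≥0∞)⁻¹ * ∑ i ∈ range B, bern q ((fun ω => f^[i] (Φ ω)) ⁻¹' A) := by
  unfold avg
  rw [Measure.smul_apply, Measure.finsetSum_apply, smul_eq_mul]
  congr 1
  apply sum_congr rfl
  intro i _
  exact Measure.map_apply ((hf.iterate i).comp hΦ) hA

lemma avg_prob {q B : ℕ} [NeZero q] (hB : 0 < B) {f : X → X} (hf : Measurable f)
    {Φ : (ℤ → Fin q) → X} (hΦ : Measurable Φ) : IsProbabilityMeasure (avg q B f Φ) := by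
  constructor
  rw [avg_apply hf hΦ MeasurableSet.univ]
  simp only [Set.preimage_univ, measure_univ, sum_const, card_range, nsmul_eq_mul, mul_one]
  exact ENNReal.inv_mul_cancel (by exact_mod_cast hB.ne') (by finiteness)

lemma avg_real {q B : ℕ} [NeZero q] {f : X → X} (hf : Measurable f) {Φ : (ℤ → Fin q) → X}
    (hΦ : Measurable Φ) {A : Set X} (hA : MeasurableSet A) :
    (avg q B f Φ).real A =
      ∑ i ∈ range B, (B : ℝ)⁻¹ • (bern q).real ((fun ω => f^[i] (Φ ω)) ⁻¹' A) := by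
  rw [measureReal_def, avg_apply hf hΦ hA, ENNReal.toReal_mul, ENNReal.toReal_sum
    (fun i _ => measure_ne_top _ _), mul_sum]
  simp [measureReal_def]

lemma avg_invariant {q B : ℕ} [NeZero q] (hB : 0 < B) {f : X → X} (hf : Measurable f)
    {Φ : (ℤ → Fin q) → X} (hΦ : Measurable Φ) (hsh : ∀ ω, f^[B] (Φ ω) = Φ (shift ω)) :
    MeasurePreserving f (avg q B f Φ) (avg q B f Φ) := by
  refine ⟨hf, ?_⟩
  ext A hA
  rw [Measure.map_apply hf hA, avg_apply hf hΦ hA, avg_apply hf hΦ (hf hA)]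
  congr 1
  obtain ⟨B', rfl⟩ : ∃ B', B = B' + 1 := ⟨B - 1, by omega⟩
  have e : ∀ i, (fun ω => f^[i] (Φ ω)) ⁻¹' (f ⁻¹' A) = (fun ω => f^[i + 1] (Φ ω)) ⁻¹' A := by
    intro i
    ext ω
    simp only [Set.mem_preimage, Function.iterate_succ_apply']
  simp_rw [e]
  rw [sum_range_succ, sum_range_succ' (fun i => bern q ((fun ω => f^[i] (Φ ω)) ⁻¹' A))]
  congr 1
  have e2 : (fun ω => f^[B' + 1] (Φ ω)) ⁻¹' A = shift ⁻¹' ((fun ω => f^[0] (Φ ω)) ⁻¹' A) := by
    ext ω
    simp only [Set.mem_preimage, hsh, Function.iterate_zero, id_eq]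
  have hA' : MeasurableSet ((fun ω => f^[0] (Φ ω)) ⁻¹' A) := hΦ hA
  rw [e2, ← Measure.map_apply measurable_shift hA', bern_shift]

lemma shannon_avg {q B : ℕ} [NeZero q] (hB : 0 < B) {f : X → X} (hf : Measurable f)
    {Φ : (ℤ → Fin q) → X} (hΦ : Measurable Φ) {ι : Type*} [Fintype ι] (Q : X → ι)
    (hQ : ∀ a, MeasurableSet (Q ⁻¹' {a})) (s : ℝ)
    (hs : ∀ i < B, s ≤ shannon (bern q) (fun ω => Q (f^[i] (Φ ω)))) :
    s ≤ shannon (avg q B f Φ) Q := by
  have hB' : (B : ℝ) ≠ 0 := by exact_mod_cast hB.ne'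
  have h1 : ∀ a, ∑ i ∈ range B, (B : ℝ)⁻¹ •
      Real.negMulLog ((bern q).real ((fun ω => f^[i] (Φ ω)) ⁻¹' (Q ⁻¹' {a}))) ≤
      Real.negMulLog ((avg q B f Φ).real (Q ⁻¹' {a})) := by
    intro a
    rw [avg_real hf hΦ (hQ a)]
    apply Real.concaveOn_negMulLog.le_map_sum
    · intro i _
      positivity
    · rw [sum_const, card_range, nsmul_eq_mul, mul_inv_cancel₀ hB']
    · intro i _
      exact measureReal_nonneg
  calc s = ∑ i ∈ range B, (B : ℝ)⁻¹ • s := by
        rw [sum_const, card_range, nsmul_eq_mul, smul_eq_mul]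
        field_simp
    _ ≤ ∑ i ∈ range B, (B : ℝ)⁻¹ • shannon (bern q) (fun ω => Q (f^[i] (Φ ω))) := by
        apply sum_le_sum
        intro i hi
        simp only [smul_eq_mul]
        exact mul_le_mul_of_nonneg_left (hs i (mem_range.1 hi)) (by positivity)
    _ = ∑ a, ∑ i ∈ range B, (B : ℝ)⁻¹ •
          Real.negMulLog ((bern q).real ((fun ω => f^[i] (Φ ω)) ⁻¹' (Q ⁻¹' {a}))) := by
        rw [sum_comm]
        apply sum_congr rfl
        intro i _
        rw [shannon, smul_sum]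
        rfl
    _ ≤ shannon (avg q B f Φ) Q := sum_le_sum fun a _ => h1 a

lemma iterate_shift_zero {q : ℕ} (m : ℕ) (ω : ℤ → Fin q) (k : ℤ) : shift^[m] ω k = ω (k + m) := by
  induction m generalizing ω with
  | zero => simp
  | succ m ih =>
    rw [Function.iterate_succ_apply, ih]
    unfold shift
    congr 1
    push_cast
    ring

lemma iterate_block {q B : ℕ} {f : X → X} {Φ : (ℤ → Fin q) → X}
    (hsh : ∀ ω, f^[B] (Φ ω) = Φ (shift ω)) (m : ℕ) (ω : ℤ → Fin q) :
    f^[m * B] (Φ ω) = Φ (shift^[m] ω) := by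
  induction m generalizing ω with
  | zero => simp
  | succ m ih =>
    have e : (m + 1) * B = m * B + B := by ring
    rw [e, Function.iterate_add_apply, hsh, ih, Function.iterate_succ_apply]

lemma measurable_itin {f : X → X} (hf : Measurable f) {k : ℕ} {P : X → Fin k}
    (hP : Measurable P) (n : ℕ) : Measurable (itin f P n) := by
  unfold itin
  rw [measurable_pi_iff]
  intro a
  exact hP.comp (hf.iterate a)

lemma shannon_avg_itin {q B : ℕ} [NeZero q] (hB : 0 < B) {f : X → X} (hf : Measurable f)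
    {Φ : (ℤ → Fin q) → X} (hΦ : Measurable Φ) (hsh : ∀ ω, f^[B] (Φ ω) = Φ (shift ω)) {k : ℕ}
    {P : X → Fin k} (hP : Measurable P) (D : (Fin B → Fin k) → Fin q)
    (hD : ∀ ω, D (fun i => P (f^[i] (Φ ω))) = ω 0) (l n : ℕ) (hn : (l + 1) * B ≤ n) :
    l * Real.log q ≤ shannon (avg q B f Φ) (itin f P n) := by
  apply shannon_avg hB hf hΦ _ (fun a => measurable_itin hf hP n (measurableSet_singleton a))
  intro i hi
  have hidx : ∀ (a : Fin l) (j : Fin B), (a + 1) * B + j - i < n := by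
    intro a j
    have h1 : (a + 1 + 1) * B ≤ (l + 1) * B := Nat.mul_le_mul_right B (by omega)
    have h2 : ((a : ℕ) + 1 + 1) * B = (a + 1) * B + B := by ring
    have := j.2
    omega
  let h : (Fin n → Fin k) → (Fin l → Fin q) := fun w a =>
    D (fun j => w ⟨(a + 1) * B + j - i, hidx a j⟩)
  have e : (fun ω => h (itin f P n (f^[i] (Φ ω)))) =
      fun ω => fun a : Fin l => ω ((a : ℕ) + 1) := by
    funext ω a
    have e1 : ∀ j : Fin B, itin f P n (f^[i] (Φ ω)) ⟨(a + 1) * B + j - i, hidx a j⟩ =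
        P (f^[j] (Φ (shift^[a + 1] ω))) := by
      intro j
      have h1 : B ≤ ((a : ℕ) + 1) * B := Nat.le_mul_of_pos_left B (by omega)
      have h2 : ((a : ℕ) + 1) * B + j - i + i = j + ((a : ℕ) + 1) * B := by omega
      change P (f^[((a : ℕ) + 1) * B + j - i] (f^[i] (Φ ω))) = _
      rw [← iterate_block hsh, ← Function.iterate_add_apply, ← Function.iterate_add_apply, h2]
    change D (fun j => itin f P n (f^[i] (Φ ω)) ⟨(a + 1) * B + j - i, hidx a j⟩) = _
    simp_rw [e1]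
    rw [hD, iterate_shift_zero]
    push_cast
    rw [zero_add]
  rw [← shannon_bern q l, ← e]
  apply shannon_comp_le (bern q) (fun ω => itin f P n (f^[i] (Φ ω)))
  intro a
  exact ((measurable_itin hf hP n).comp ((hf.iterate i).comp hΦ)) (measurableSet_singleton a)

theorem ksEntropy_avg {q B : ℕ} [NeZero q] (hB : 0 < B) {f : X → X} (hf : Measurable f)
    {Φ : (ℤ → Fin q) → X} (hΦ : Measurable Φ) (hsh : ∀ ω, f^[B] (Φ ω) = Φ (shift ω)) {k : ℕ}
    {P : X → Fin k} (hP : Measurable P) (D : (Fin B → Fin k) → Fin q)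
    (hD : ∀ ω, D (fun i => P (f^[i] (Φ ω))) = ω 0) :
    ((Real.log q / B : ℝ) : EReal) ≤ ksEntropy (avg q B f Φ) f := by
  have hB' : (0 : ℝ) < B := by exact_mod_cast hB
  have hq : (1 : ℝ) ≤ q := by exact_mod_cast Nat.one_le_iff_ne_zero.2 (NeZero.ne q)
  have hlog : 0 ≤ Real.log q := Real.log_nonneg hq
  unfold ksEntropy
  refine le_iSup_of_le k (le_iSup_of_le P (le_iSup_of_le hP ?_))
  have h1 : Tendsto (fun n : ℕ => (1 / (B : ℝ) - 2 / n) * Real.log q) atTop
      (𝓝 ((1 / (B : ℝ) - 0) * Real.log q)) := by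
    apply Tendsto.mul_const
    apply Tendsto.sub tendsto_const_nhds
    exact tendsto_const_div_atTop_nhds_zero_nat 2
  rw [sub_zero, one_div_mul_eq_div] at h1
  have h2 : Tendsto (fun n : ℕ => (((1 / (B : ℝ) - 2 / n) * Real.log q : ℝ) : EReal)) atTop
      (𝓝 ((Real.log q / B : ℝ) : EReal)) := (continuous_coe_real_ereal.tendsto _).comp h1
  rw [← h2.limsup_eq]
  refine limsup_le_limsup ?_ (by isBoundedDefault) (by isBoundedDefault)
  filter_upwards [eventually_ge_atTop B] with n hn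
  apply EReal.coe_le_coe_iff.2
  have hn0 : (0 : ℝ) < n := by exact_mod_cast lt_of_lt_of_le hB hn
  obtain ⟨l, hl⟩ : ∃ l, n / B = l + 1 := ⟨n / B - 1, by
    have := Nat.div_pos hn hB
    omega⟩
  have h3 : (l + 1) * B ≤ n := by
    rw [← hl]
    exact Nat.div_mul_le_self n B
  have h4 : (n : ℝ) < (l + 2) * B := by
    have : n < (n / B + 1) * B := by
      have h5 := Nat.div_add_mod n B
      have h6 := Nat.mod_lt n hB
      nlinarith
    rw [hl] at this
    have h7 : (n : ℝ) < (((l + 1 + 1) * B : ℕ) : ℝ) := by exact_mod_cast this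
    push_cast at h7
    linarith
  have h5 := shannon_avg_itin hB hf hΦ hsh hP D hD l n h3
  rw [le_div_iff₀ hn0]
  refine le_trans ?_ h5
  have e : (1 / (B : ℝ) - 2 / n) * Real.log q * n = (n / B - 2) * Real.log q := by
    field_simp
  rw [e]
  apply mul_le_mul_of_nonneg_right _ hlog
  have h8 : (n : ℝ) / B < l + 2 := by
    rw [div_lt_iff₀ hB']
    exact h4
  linarith

theorem integral_avg_le {q B : ℕ} [NeZero q] (hB : 0 < B) {f : X → X} (hf : Measurable f)
    {Φ : (ℤ → Fin q) → X} (hΦ : Measurable Φ) {ψ : X → ℝ} (hψ : Measurable ψ) {S : ℝ}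
    (hS : ∀ x, |ψ x| ≤ S) {c : ℝ} (hc : ∀ ω, ∑ i ∈ range B, ψ (f^[i] (Φ ω)) ≤ c) :
    ∫ x, ψ x ∂(avg q B f Φ) ≤ c / B := by
  have hm : ∀ i, Measurable (fun ω => f^[i] (Φ ω)) := fun i => (hf.iterate i).comp hΦ
  have hint : ∀ (ρ : Measure X) [IsFiniteMeasure ρ], Integrable ψ ρ := by
    intro ρ _
    exact Integrable.of_bound hψ.aestronglyMeasurable S (Eventually.of_forall hS)
  have hintm : ∀ i, Integrable (fun ω => ψ (f^[i] (Φ ω))) (bern q) := by
    intro i
    exact Integrable.of_bound (hψ.comp (hm i)).aestronglyMeasurable S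
      (Eventually.of_forall fun ω => hS _)
  have hpm : ∀ i, IsProbabilityMeasure ((bern q).map (fun ω => f^[i] (Φ ω))) :=
    fun i => Measure.isProbabilityMeasure_map (hm i).aemeasurable
  unfold avg
  rw [integral_smul_measure, integral_finsetSum_measure (fun i _ => by
    have := hpm i
    exact hint _)]
  have e : ∀ i ∈ range B, ∫ x, ψ x ∂((bern q).map (fun ω => f^[i] (Φ ω))) =
      ∫ ω, ψ (f^[i] (Φ ω)) ∂(bern q) := fun i _ =>
    integral_map (hm i).aemeasurable hψ.aestronglyMeasurable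
  rw [sum_congr rfl e, ← integral_finsetSum _ (fun i _ => hintm i)]
  have h1 : ∫ ω, ∑ i ∈ range B, ψ (f^[i] (Φ ω)) ∂(bern q) ≤ ∫ _, c ∂(bern q) := by
    apply integral_mono (integrable_finsetSum _ fun i _ => hintm i) (integrable_const _)
    exact hc
  simp only [integral_const, probReal_univ, one_smul] at h1
  rw [ENNReal.toReal_inv, ENNReal.toReal_natCast, smul_eq_mul, inv_mul_eq_div]
  exact div_le_div_of_nonneg_right h1 (by positivity)

end Pool.Agent.H576R3.PR
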