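import Mathlib

set_option autoImplicit false

open scoped Topology
open Filter Finset

namespace Pool.Agent.H576R3.PR

/-- uniform one-step hyperbolic data for a map of a normed space -/
structure IsHyp {V : Type*} [NormedAddCommGroup V] [InnerProductSpace ℝ V] (G : V → V)
    (A P : V → V →L[ℝ] V) (ψ : V → ℝ) (K : ℝ) : Prop where
  one_le : 1 ≤ K
  cont : Continuous G
  boundA : ∀ x, ‖A x‖ ≤ K
  boundP : ∀ x, ‖P x‖ ≤ K
  taylor : ∀ x ζ, ‖G (x + ζ) - G x - A x ζ‖ ≤ K * ‖ζ‖ ^ 2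
  lipA : ∀ x y, ‖A x - A y‖ ≤ K * ‖x - y‖
  unifP : ∀ η > 0, ∃ δ > 0, ∀ x y, ‖x - y‖ ≤ δ → ‖P x - P y‖ ≤ η
  idem : ∀ x v, P x (P x v) = P x v
  inv : ∀ x v, P (G x) (A x v) = A x (P x v)
  contr : ∀ x v, P x v = v → ‖A x v‖ ≤ 1 / 8 * ‖v‖
  expan : ∀ x v, P x v = 0 → 8 * ‖v‖ ≤ ‖A x v‖
  line : ∀ x v w, P x v = 0 → P x w = 0 → ‖v‖ = 1 → ∃ c : ℝ, w = c • v
  exists_unit : ∀ x, ∃ v, ‖v‖ = 1 ∧ P x v = 0
  psi : ∀ x v, P x v = 0 → ‖A x v‖ = Real.exp (ψ x) * ‖v‖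

variable {V : Type*} [NormedAddCommGroup V] [InnerProductSpace ℝ V] {G : V → V}
    {A P : V → V →L[ℝ] V} {ψ : V → ℝ} {K : ℝ}

lemma seq_sum_bound (s u : ℕ → ℝ) (n : ℕ) (hs : ∀ k, 0 ≤ s k) (hu : ∀ k, 0 ≤ u k)
    (h1 : ∀ k < n, s (k + 1) ≤ s k / 8 + (s k + u k) / 8)
    (h2 : ∀ k < n, 8 * u k ≤ u (k + 1) + (s k + u k) / 8) :
    ∑ k ∈ range n, (s k + u k) ≤ 2 * (s 0 + u n) := by
  have e1 : ∑ k ∈ range n, s (k + 1) = ∑ k ∈ range n, s k + s n - s 0 := by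
    have := sum_range_succ s n
    rw [sum_range_succ'] at this
    linarith
  have e2 : ∑ k ∈ range n, u (k + 1) = ∑ k ∈ range n, u k + u n - u 0 := by
    have := sum_range_succ u n
    rw [sum_range_succ'] at this
    linarith
  have i1 : ∑ k ∈ range n, s (k + 1) ≤ ∑ k ∈ range n, (s k / 8 + (s k + u k) / 8) :=
    sum_le_sum fun k hk => h1 k (mem_range.1 hk)
  have i2 : ∑ k ∈ range n, 8 * u k ≤ ∑ k ∈ range n, (u (k + 1) + (s k + u k) / 8) :=
    sum_le_sum fun k hk => h2 k (mem_range.1 hk)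
  rw [sum_add_distrib, ← sum_div, ← sum_div, sum_add_distrib] at i1
  rw [sum_add_distrib, ← sum_div, ← mul_sum, sum_add_distrib] at i2
  rw [sum_add_distrib]
  have := hs n
  have := hu 0
  have := hs 0
  have := hu n
  have : 0 ≤ ∑ k ∈ range n, s k := sum_nonneg fun k _ => hs k
  have : 0 ≤ ∑ k ∈ range n, u k := sum_nonneg fun k _ => hu k
  linarith

lemma IsHyp.step (H : IsHyp G A P ψ K) {ρ : ℝ} (hρ : (1 + K) * K * ρ ≤ 1 / 8) (x z : V)
    (hd : ‖z - x‖ ≤ ρ) :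
    ‖P (G x) (G z - G x)‖ ≤ ‖P x (z - x)‖ / 8 + (‖P x (z - x)‖ + ‖(z - x) - P x (z - x)‖) / 8 ∧
    8 * ‖(z - x) - P x (z - x)‖ ≤ ‖(G z - G x) - P (G x) (G z - G x)‖ +
      (‖P x (z - x)‖ + ‖(z - x) - P x (z - x)‖) / 8 := by
  have hK := H.one_le
  set ζ := z - x with hζ
  set s := ‖P x ζ‖ with hs
  set u := ‖ζ - P x ζ‖ with hu
  set e := G z - G x - A x ζ with he
  have hζsu : ‖ζ‖ ≤ s + u := by
    calc ‖ζ‖ = ‖P x ζ + (ζ - P x ζ)‖ := by congr 1; abel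
      _ ≤ s + u := norm_add_le _ _
  have hsu : 0 ≤ s + u := by positivity
  have hρ0 : 0 ≤ ρ := (norm_nonneg _).trans hd
  have hen : ‖e‖ ≤ K * ρ * (s + u) := by
    have := H.taylor x ζ
    have e1 : x + ζ = z := by rw [hζ]; abel
    rw [e1] at this
    calc ‖e‖ ≤ K * ‖ζ‖ ^ 2 := this
      _ = K * (‖ζ‖ * ‖ζ‖) := by ring
      _ ≤ K * (ρ * (s + u)) := by
        apply mul_le_mul_of_nonneg_left _ (by linarith)
        exact mul_le_mul hd hζsu (norm_nonneg _) hρ0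
      _ = _ := by ring
  have hPe : ‖P (G x) e‖ ≤ K * ‖e‖ :=
    ((P (G x)).le_opNorm e).trans (mul_le_mul_of_nonneg_right (H.boundP _) (norm_nonneg _))
  have hQe : ‖e - P (G x) e‖ ≤ (1 + K) * ‖e‖ := by
    refine (norm_sub_le _ _).trans ?_
    linarith
  have hsmall : (1 + K) * ‖e‖ ≤ (s + u) / 8 := by
    calc (1 + K) * ‖e‖ ≤ (1 + K) * (K * ρ * (s + u)) :=
          mul_le_mul_of_nonneg_left hen (by linarith)
      _ = ((1 + K) * K * ρ) * (s + u) := by ring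
      _ ≤ 1 / 8 * (s + u) := mul_le_mul_of_nonneg_right hρ hsu
      _ = _ := by ring
  have e2 : G z - G x = A x ζ + e := by rw [he]; abel
  constructor
  · have e3 : P (G x) (G z - G x) = A x (P x ζ) + P (G x) e := by
      rw [e2, map_add, H.inv]
    rw [e3]
    have h1 := H.contr x (P x ζ) (H.idem x ζ)
    have h2 := norm_add_le (A x (P x ζ)) (P (G x) e)
    have h3 : K * ‖e‖ ≤ (1 + K) * ‖e‖ := by
      apply mul_le_mul_of_nonneg_right _ (norm_nonneg _); linarith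
    linarith
  · have e3 : A x (ζ - P x ζ) = (G z - G x) - P (G x) (G z - G x) - (e - P (G x) e) := by
      rw [e2, map_add, H.inv, map_sub]
      abel
    have h1 := H.expan x (ζ - P x ζ) (by rw [map_sub, H.idem, sub_self])
    rw [e3] at h1
    have h2 := norm_sub_le ((G z - G x) - P (G x) (G z - G x)) (e - P (G x) e)
    linarith

/-- the sum of distances along two orbits which stay close is controlled by the two ends -/
theorem IsHyp.sum_bound (H : IsHyp G A P ψ K) {ρ : ℝ} (hρ : (1 + K) * K * ρ ≤ 1 / 8)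
    (x z : V) (n : ℕ) (hd : ∀ k ≤ n, ‖G^[k] z - G^[k] x‖ ≤ ρ) :
    ∑ k ∈ range n, ‖G^[k] z - G^[k] x‖ ≤ 2 * (1 + K) * (‖z - x‖ + ‖G^[n] z - G^[n] x‖) := by
  have hK := H.one_le
  have key := seq_sum_bound (fun k => ‖P (G^[k] x) (G^[k] z - G^[k] x)‖)
    (fun k => ‖(G^[k] z - G^[k] x) - P (G^[k] x) (G^[k] z - G^[k] x)‖) n
    (fun k => norm_nonneg _) (fun k => norm_nonneg _)
    (fun k hk => by
      have := (H.step hρ (G^[k] x) (G^[k] z) (hd k hk.le)).1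
      simpa only [Function.iterate_succ_apply'] using this)
    (fun k hk => by
      have := (H.step hρ (G^[k] x) (G^[k] z) (hd k hk.le)).2
      simpa only [Function.iterate_succ_apply'] using this)
  have h1 : ∑ k ∈ range n, ‖G^[k] z - G^[k] x‖ ≤
      ∑ k ∈ range n, (‖P (G^[k] x) (G^[k] z - G^[k] x)‖ +
        ‖(G^[k] z - G^[k] x) - P (G^[k] x) (G^[k] z - G^[k] x)‖) := by
    apply sum_le_sum
    intro k _
    calc ‖G^[k] z - G^[k] x‖ = ‖P (G^[k] x) (G^[k] z - G^[k] x) +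
          ((G^[k] z - G^[k] x) - P (G^[k] x) (G^[k] z - G^[k] x))‖ := by congr 1; abel
      _ ≤ _ := norm_add_le _ _
  refine h1.trans (key.trans ?_)
  simp only [Function.iterate_zero, id_eq]
  have h2 : ‖P x (z - x)‖ ≤ K * ‖z - x‖ :=
    ((P x).le_opNorm _).trans (mul_le_mul_of_nonneg_right (H.boundP _) (norm_nonneg _))
  have h3 : ‖P (G^[n] x) (G^[n] z - G^[n] x)‖ ≤ K * ‖G^[n] z - G^[n] x‖ :=
    ((P _).le_opNorm _).trans (mul_le_mul_of_nonneg_right (H.boundP _) (norm_nonneg _))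
  have h4 := norm_sub_le (G^[n] z - G^[n] x) (P (G^[n] x) (G^[n] z - G^[n] x))
  have := norm_nonneg (z - x)
  nlinarith

/-- comparison of the expansion along two orbits -/
theorem IsHyp.cost_bound (H : IsHyp G A P ψ K) {ρ C : ℝ}
    (hη : ∀ x y, ‖x - y‖ ≤ ρ → ‖P x - P y‖ ≤ 1 / 2)
    (x z : V) (n : ℕ) (hd : ∀ k ≤ n, ‖G^[k] z - G^[k] x‖ ≤ ρ)
    (hs : ∑ k ∈ range n, ‖G^[k] z - G^[k] x‖ ≤ C) :
    ∑ k ∈ range n, ψ (G^[k] z) ≤ ∑ k ∈ range n, ψ (G^[k] x) +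
      (2 * (1 + K) * K * C + Real.log 3) := by
  have hK := H.one_le
  obtain ⟨v0, hv0, hPv0⟩ := H.exists_unit z
  -- transported vector
  let v : ℕ → V := fun k => Nat.rec v0 (fun i w => A (G^[i] z) w) k
  have hv_zero : v 0 = v0 := rfl
  have hv_succ : ∀ k, v (k + 1) = A (G^[k] z) (v k) := fun k => rfl
  have hPv : ∀ k, P (G^[k] z) (v k) = 0 := by
    intro k
    induction k with
    | zero => exact hPv0
    | succ k ih =>
      rw [hv_succ, Function.iterate_succ_apply', H.inv, ih, map_zero]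
  have hnorm : ∀ k, ‖v k‖ = Real.exp (∑ i ∈ range k, ψ (G^[i] z)) := by
    intro k
    induction k with
    | zero => simp [hv_zero, hv0]
    | succ k ih =>
      rw [hv_succ, H.psi _ _ (hPv k), ih, sum_range_succ, ← Real.exp_add, add_comm]
  have hexp1 : ∀ y, 1 ≤ Real.exp (ψ y) := by
    intro y
    obtain ⟨w, hw, hPw⟩ := H.exists_unit y
    have h1 := H.expan y w hPw
    rw [H.psi y w hPw, hw] at h1
    linarith
  set w : ℕ → ℝ := fun k => ‖v k - P (G^[k] x) (v k)‖ with hw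
  have hPx : ∀ k ≤ n, ‖P (G^[k] x) (v k)‖ ≤ 1 / 2 * ‖v k‖ := by
    intro k hk
    have h1 : P (G^[k] x) (v k) = (P (G^[k] x) - P (G^[k] z)) (v k) := by
      rw [sub_apply, hPv k, sub_zero]
    rw [h1]
    refine ((P (G^[k] x) - P (G^[k] z)).le_opNorm _).trans ?_
    apply mul_le_mul_of_nonneg_right _ (norm_nonneg _)
    apply hη
    rw [norm_sub_rev]
    exact hd k hk
  have hlow : ∀ k ≤ n, ‖v k‖ ≤ 2 * w k := by
    intro k hk
    have h1 := hPx k hk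
    have h2 : ‖v k‖ ≤ ‖P (G^[k] x) (v k)‖ + w k := by
      calc ‖v k‖ = ‖P (G^[k] x) (v k) + (v k - P (G^[k] x) (v k))‖ := by congr 1; abel
        _ ≤ _ := norm_add_le _ _
    linarith
  set c := 2 * (1 + K) * K with hc
  have hc0 : 0 ≤ c := by rw [hc]; positivity
  have hstep : ∀ k < n, w (k + 1) ≤ w k * Real.exp (ψ (G^[k] x) + c * ‖G^[k] z - G^[k] x‖) := by
    intro k hk
    set y := G^[k] x with hy
    set y' := G^[k] z with hy'
    set e := (A y' - A y) (v k) with he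
    have e1 : v (k + 1) = A y (v k) + e := by
      rw [hv_succ, he, sub_apply]; abel
    have e2 : v (k + 1) - P (G^[k + 1] x) (v (k + 1)) =
        A y (v k - P y (v k)) + (e - P (G y) e) := by
      rw [Function.iterate_succ_apply', ← hy, e1, map_add, H.inv, map_sub]
      abel
    have h1 : ‖A y (v k - P y (v k))‖ = Real.exp (ψ y) * w k :=
      H.psi y _ (by rw [map_sub, H.idem, sub_self])
    have h2 : ‖e‖ ≤ K * ‖y' - y‖ * ‖v k‖ :=
      ((A y' - A y).le_opNorm _).trans (mul_le_mul_of_nonneg_right (H.lipA _ _) (norm_nonneg _))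
    have h3 : ‖P (G y) e‖ ≤ K * ‖e‖ :=
      ((P (G y)).le_opNorm e).trans (mul_le_mul_of_nonneg_right (H.boundP _) (norm_nonneg _))
    have h4 : ‖e - P (G y) e‖ ≤ (1 + K) * ‖e‖ := by
      refine (norm_sub_le _ _).trans ?_
      linarith
    have h5 : ‖e - P (G y) e‖ ≤ c * ‖y' - y‖ * w k := by
      calc ‖e - P (G y) e‖ ≤ (1 + K) * ‖e‖ := h4
        _ ≤ (1 + K) * (K * ‖y' - y‖ * ‖v k‖) := mul_le_mul_of_nonneg_left h2 (by linarith)
        _ ≤ (1 + K) * (K * ‖y' - y‖ * (2 * w k)) := by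
          apply mul_le_mul_of_nonneg_left _ (by linarith)
          apply mul_le_mul_of_nonneg_left (hlow k hk.le)
          have := norm_nonneg (y' - y)
          positivity
        _ = _ := by rw [hc]; ring
    have hwk : 0 ≤ w k := norm_nonneg _
    have hcn : 0 ≤ c * ‖y' - y‖ := mul_nonneg hc0 (norm_nonneg _)
    calc w (k + 1) = ‖A y (v k - P y (v k)) + (e - P (G y) e)‖ := by rw [← e2]
      _ ≤ Real.exp (ψ y) * w k + c * ‖y' - y‖ * w k := by
        refine (norm_add_le _ _).trans ?_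
        rw [h1]
        linarith
      _ = w k * (Real.exp (ψ y) + 1 * (c * ‖y' - y‖)) := by ring
      _ ≤ w k * (Real.exp (ψ y) + Real.exp (ψ y) * (c * ‖y' - y‖)) := by
        apply mul_le_mul_of_nonneg_left _ hwk
        have := mul_le_mul_of_nonneg_right (hexp1 y) hcn
        linarith
      _ = w k * (Real.exp (ψ y) * (c * ‖y' - y‖ + 1)) := by ring
      _ ≤ w k * (Real.exp (ψ y) * Real.exp (c * ‖y' - y‖)) := by
        apply mul_le_mul_of_nonneg_left _ hwk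
        apply mul_le_mul_of_nonneg_left (Real.add_one_le_exp _) (Real.exp_pos _).le
      _ = _ := by rw [← Real.exp_add]
  have hall : ∀ k ≤ n, w k ≤ w 0 * Real.exp (∑ i ∈ range k, (ψ (G^[i] x) +
      c * ‖G^[i] z - G^[i] x‖)) := by
    intro k
    induction k with
    | zero => intro _; simp
    | succ k ih =>
      intro hk
      have h1 := ih (by omega)
      have h2 := hstep k (by omega)
      refine h2.trans ?_
      rw [sum_range_succ, Real.exp_add (∑ i ∈ range k, (ψ (G^[i] x) +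
        c * ‖G^[i] z - G^[i] x‖)), ← mul_assoc]
      exact mul_le_mul_of_nonneg_right h1 (Real.exp_pos _).le
  have hw0 : w 0 ≤ 3 / 2 := by
    have h1 := hPx 0 (Nat.zero_le _)
    have h2 : w 0 ≤ ‖v 0‖ + ‖P (G^[0] x) (v 0)‖ := norm_sub_le _ _
    rw [hv_zero, hv0] at h1 h2
    linarith
  have h1 := hlow n le_rfl
  have h2 := hall n le_rfl
  rw [hnorm n] at h1
  rw [sum_add_distrib, ← mul_sum] at h2
  have h3 : Real.exp (∑ k ∈ range n, ψ (G^[k] z)) ≤
      3 * Real.exp (∑ k ∈ range n, ψ (G^[k] x) + c * C) := by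
    have h4 : Real.exp (∑ k ∈ range n, ψ (G^[k] x) + c * ∑ k ∈ range n, ‖G^[k] z - G^[k] x‖) ≤
        Real.exp (∑ k ∈ range n, ψ (G^[k] x) + c * C) := by
      apply Real.exp_le_exp.2
      have := mul_le_mul_of_nonneg_left hs hc0
      linarith
    have h5 := Real.exp_pos (∑ k ∈ range n, ψ (G^[k] x) + c * ∑ k ∈ range n, ‖G^[k] z - G^[k] x‖)
    nlinarith
  have h6 : (3 : ℝ) = Real.exp (Real.log 3) := (Real.exp_log (by norm_num)).symm
  rw [h6, ← Real.exp_add, Real.exp_le_exp] at h3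
  linarith

/-- a continuous function crossing the band `[-r, r]` crosses it on a subinterval -/
lemma exists_crossing (φ : ℝ → ℝ) (hφ : Continuous φ) {a b r : ℝ} (hab : a ≤ b) (hr : 0 < r)
    (ha : φ a ≤ -r) (hb : r ≤ φ b) :
    ∃ a' b', a ≤ a' ∧ a' ≤ b' ∧ b' ≤ b ∧ φ a' = -r ∧ φ b' = r ∧
      ∀ τ ∈ Set.Icc a' b', |φ τ| ≤ r := by
  have hS : IsCompact (Set.Icc a b ∩ φ ⁻¹' Set.Ici r) :=
    isCompact_Icc.inter_right (isClosed_Ici.preimage hφ)
  obtain ⟨b', hb'S, hb'⟩ := hS.exists_isLeast ⟨b, ⟨⟨hab, le_rfl⟩, hb⟩⟩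
  have hφb' : r ≤ φ b' := hb'S.2
  have hab' : a ≤ b' := hb'S.1.1
  have hφb'' : φ b' = r := by
    obtain ⟨τ, hτ, hτr⟩ := intermediate_value_Icc hab' hφ.continuousOn ⟨by linarith, hφb'⟩
    have := hb' ⟨⟨hτ.1, hτ.2.trans hb'S.1.2⟩, hτr.ge⟩
    rw [le_antisymm this hτ.2]
    exact hτr
  have hT : IsCompact (Set.Icc a b' ∩ φ ⁻¹' Set.Iic (-r)) :=
    isCompact_Icc.inter_right (isClosed_Iic.preimage hφ)
  obtain ⟨a', ha'S, ha'⟩ := hT.exists_isGreatest ⟨a, ⟨⟨le_rfl, hab'⟩, ha⟩⟩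
  have hφa' : φ a' ≤ -r := ha'S.2
  have haa' : a' ≤ b' := ha'S.1.2
  have hφa'' : φ a' = -r := by
    obtain ⟨τ, hτ, hτr⟩ := intermediate_value_Icc haa' hφ.continuousOn
      (show -r ∈ Set.Icc (φ a') (φ b') from ⟨hφa', by linarith⟩)
    have := ha' ⟨⟨ha'S.1.1.trans hτ.1, hτ.2⟩, hτr.le⟩
    rw [le_antisymm hτ.1 this]
    exact hτr
  refine ⟨a', b', ha'S.1.1, haa', hb'S.1.2, hφa'', hφb'', ?_⟩
  intro τ hτ
  rw [abs_le]
  constructor
  · by_contra hlt
    push Not at hlt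
    have := ha' ⟨⟨ha'S.1.1.trans hτ.1, hτ.2⟩, hlt.le⟩
    rw [le_antisymm this hτ.1] at hlt
    linarith
  · by_contra hlt
    push Not at hlt
    have := hb' ⟨⟨ha'S.1.1.trans hτ.1, hτ.2.trans hb'S.1.2⟩, hlt.le⟩
    rw [le_antisymm hτ.2 this] at hlt
    linarith

end Pool.Agent.H576R3.PR
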