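import Pool.Agent.H576R3.PR.Fun

set_option autoImplicit false

open scoped Topology ENNReal
open MeasureTheory Filter Finset
open Pool.Agent.H576R3.Defs (ksEntropy)

namespace Pool.Agent.H576R3.PR

variable {X : Type*} [MeasurableSpace X]

lemma le_pressure (f : X → X) (φ : X → ℝ) (μ : Measure X) (h1 : IsProbabilityMeasure μ)
    (h2 : MeasurePreserving f μ μ) :
    ksEntropy μ f + ((∫ x, φ x ∂μ : ℝ) : EReal) ≤ pressure f φ :=
  le_iSup_of_le μ (le_iSup_of_le h1 (le_iSup_of_le h2 le_rfl))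

lemma exists_of_lt_pressure (f : X → X) (φ : X → ℝ) {a : EReal} (h : a < pressure f φ) :
    ∃ μ : Measure X, IsProbabilityMeasure μ ∧ MeasurePreserving f μ μ ∧
      a < ksEntropy μ f + ((∫ x, φ x ∂μ : ℝ) : EReal) := by
  unfold pressure at h
  simp only [lt_iSup_iff] at h
  obtain ⟨μ, h1, h2, h3⟩ := h
  exact ⟨μ, h1, h2, h3⟩

lemma exists_small_sum {f : X → X} {ψ : X → ℝ} (hψ : Measurable ψ) {S : ℝ}
    (hS : ∀ x, |ψ x| ≤ S) {c : ℝ}
    (hmin : ∀ κ > 0, ∃ μ : Measure X, IsProbabilityMeasure μ ∧ MeasurePreserving f μ μ ∧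
      ∫ x, ψ x ∂μ ≤ c + κ) (n : ℕ) (hn : 0 < n) :
    ∃ x, ∑ i ∈ range n, ψ (f^[i] x) ≤ n * c + 1 := by
  have hn0 : (0 : ℝ) < n := by exact_mod_cast hn
  obtain ⟨μ, hμ1, hμ2, hμ3⟩ := hmin (1 / n) (by positivity)
  have hm : ∀ i, Measurable (fun x => ψ (f^[i] x)) := fun i => hψ.comp (hμ2.measurable.iterate i)
  have hint : ∀ i, Integrable (fun x => ψ (f^[i] x)) μ := fun i =>
    Integrable.of_bound (hm i).aestronglyMeasurable S (Eventually.of_forall fun x => hS _)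
  have heq : ∀ i, ∫ x, ψ (f^[i] x) ∂μ = ∫ x, ψ x ∂μ := by
    intro i
    have h1 := (hμ2.iterate i).map_eq
    conv_rhs => rw [← h1]
    rw [integral_map (hμ2.measurable.iterate i).aemeasurable hψ.aestronglyMeasurable]
  obtain ⟨x, hx⟩ := exists_le_integral (integrable_finsetSum (range n) fun i _ => hint i)
  refine ⟨x, hx.trans ?_⟩
  rw [integral_finsetSum _ (fun i _ => hint i)]
  simp_rw [heq]
  rw [sum_const, card_range, nsmul_eq_mul]
  calc (n : ℝ) * ∫ x, ψ x ∂μ ≤ n * (c + 1 / n) := mul_le_mul_of_nonneg_left hμ3 hn0.le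
    _ = n * c + 1 := by field_simp

theorem not_cand {f : X → X} {ψ : X → ℝ} (hψ : Measurable ψ) {S : ℝ}
    (hS : ∀ x, |ψ x| ≤ S) {h : ℝ} (hh : 0 < h) {N : ℕ} {C₁ : ℝ} (hN : 0 < N) (hC₁ : 0 ≤ C₁)
    (hor : ∀ q : ℕ, 0 < q → ∀ x, ∃ ν : Measure X,
      IsProbabilityMeasure ν ∧ MeasurePreserving f ν ν ∧
      ((Real.log q / (N * (2 * q + 1) : ℕ) : ℝ) : EReal) ≤ ksEntropy ν f ∧
      ∫ y, ψ y ∂ν ≤ (∑ i ∈ range (N * (2 * q)), ψ (f^[i] x) + C₁) / (N * (2 * q + 1) : ℕ)) :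
    ¬ ∀ t : ℝ, pressure f (fun y => -t * ψ y) = ((cand h t : ℝ) : EReal) := by
  intro hp
  set c := h / R 0 * R 1 with hc
  have hk : 0 < h / R 0 := div_pos hh (R_pos 0)
  have hc0 : 0 < c := mul_pos hk (R_pos 1)
  have hcand : ∀ t, cand h t = h / R 0 * R t - c * t := by
    intro t
    rw [cand, hc]
    ring
  have hN0 : (0 : ℝ) < N := by exact_mod_cast hN
  -- step 1
  have hent : ∀ μ : Measure X, IsProbabilityMeasure μ → MeasurePreserving f μ μ →
      ksEntropy μ f ≤ (h : EReal) := by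
    intro μ h1 h2
    have h3 := le_pressure f (fun y => -0 * ψ y) μ h1 h2
    rw [hp 0, (isCandidate_cand hh).zero] at h3
    simpa using h3
  -- step 2
  have hmin : ∀ κ > 0, ∃ μ : Measure X, IsProbabilityMeasure μ ∧ MeasurePreserving f μ μ ∧
      ∫ x, ψ x ∂μ ≤ c + κ := by
    intro κ hκ
    set t := (h + 1) / κ with ht
    have ht0 : 0 < t := by positivity
    have h1 : ((-(c * t) - 1 : ℝ) : EReal) < pressure f (fun y => -t * ψ y) := by
      rw [hp t, hcand]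
      apply EReal.coe_lt_coe_iff.2
      have := mul_pos hk (R_pos t)
      linarith
    obtain ⟨μ, hμ1, hμ2, hμ3⟩ := exists_of_lt_pressure _ _ h1
    refine ⟨μ, hμ1, hμ2, ?_⟩
    have h2 : ((-(c * t) - 1 : ℝ) : EReal) < (h : EReal) + ((∫ x, -t * ψ x ∂μ : ℝ) : EReal) :=
      lt_of_lt_of_le hμ3 (add_le_add (hent μ hμ1 hμ2) le_rfl)
    rw [← EReal.coe_add, EReal.coe_lt_coe_iff, integral_const_mul] at h2
    have h3 : κ * t = h + 1 := by rw [ht]; field_simp
    by_contra hcon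
    push Not at hcon
    have h4 := mul_lt_mul_of_pos_left hcon ht0
    nlinarith
  -- step 3 and 4
  have hlow : ∀ t : ℝ, 0 ≤ t → ∀ q : ℕ, 0 < q →
      (Real.log q - (1 + C₁) * t) / (N * (2 * q + 1)) ≤ h / R 0 * R t := by
    intro t ht q hq
    have hq0 : (0 : ℝ) < q := by exact_mod_cast hq
    obtain ⟨x, hx⟩ := exists_small_sum hψ hS hmin (N * (2 * q)) (by positivity)
    obtain ⟨ν, hν1, hν2, hν3, hν4⟩ := hor q hq x
    have h1 := le_pressure f (fun y => -t * ψ y) ν hν1 hν2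
    rw [hp t, integral_const_mul] at h1
    have h2 := (add_le_add hν3 (le_refl ((-t * ∫ y, ψ y ∂ν : ℝ) : EReal))).trans h1
    rw [← EReal.coe_add, EReal.coe_le_coe_iff, hcand] at h2
    push_cast at h2 hx hν4
    have hB : 0 < (N : ℝ) * (2 * q + 1) := by positivity
    have h3 : ∫ y, ψ y ∂ν ≤ (N * (2 * q + 1) * c + (1 + C₁)) / (N * (2 * q + 1)) := by
      refine hν4.trans ?_
      apply div_le_div_of_nonneg_right _ hB.le
      have : (N : ℝ) * (2 * q) * c ≤ N * (2 * q + 1) * c := by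
        apply mul_le_mul_of_nonneg_right _ hc0.le
        nlinarith
      linarith
    have h4 : ((N : ℝ) * (2 * q + 1) * c + (1 + C₁)) / (N * (2 * q + 1)) =
        c + (1 + C₁) / (N * (2 * q + 1)) := by
      field_simp
    rw [h4] at h3
    have h5 := mul_le_mul_of_nonneg_left h3 ht
    have h6 : (Real.log q - (1 + C₁) * t) / (N * (2 * q + 1)) =
        Real.log q / (N * (2 * q + 1)) - t * ((1 + C₁) / (N * (2 * q + 1))) := by
      field_simp
    rw [h6]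
    nlinarith
  -- step 5
  obtain ⟨t, ht0, ht⟩ := cand_fast hh (1 + C₁) (Real.exp (-1) / (5 * N)) (by positivity)
  set E := Real.exp ((1 + C₁) * t + 1) with hE
  have hE1 : 1 ≤ E := Real.one_le_exp (by positivity)
  have hqE : E ≤ (⌈E⌉₊ : ℕ) := Nat.le_ceil E
  have hqE' : ((⌈E⌉₊ : ℕ) : ℝ) < E + 1 := Nat.ceil_lt_add_one (by linarith)
  have hq : 0 < ⌈E⌉₊ := Nat.ceil_pos.2 (by linarith)
  have h1 := hlow t ht0 ⌈E⌉₊ hq
  have h2 : (1 + C₁) * t + 1 ≤ Real.log (⌈E⌉₊ : ℕ) := by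
    have := Real.log_le_log (by linarith) hqE
    rwa [hE, Real.log_exp] at this
  have h3 : 1 / (5 * N * E) ≤ (Real.log (⌈E⌉₊ : ℕ) - (1 + C₁) * t) / (N * (2 * (⌈E⌉₊ : ℕ) + 1)) := by
    apply div_le_div₀ (by linarith) (by linarith) (by positivity)
    have : (2 * ((⌈E⌉₊ : ℕ) : ℝ) + 1) ≤ 5 * E := by linarith
    nlinarith
  have h4 : 1 / (5 * N * E) = Real.exp (-1) / (5 * N) * Real.exp (-((1 + C₁) * t)) := by
    rw [hE, Real.exp_add, Real.exp_neg, Real.exp_neg]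
    field_simp
  rw [h4] at h3
  linarith

end Pool.Agent.H576R3.PR
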