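import Pool.Agent.H576R3.PR.Cov

set_option autoImplicit false

open scoped Topology ENNReal ContDiff
open MeasureTheory Filter Finset

namespace Pool.Agent.H576R3.PR

section general

variable {V : Type*} [NormedAddCommGroup V] [NormedSpace ℝ V] {F : V → V} {P : V → V →L[ℝ] V}

lemma fderiv_iterate_succ (hF : Differentiable ℝ F) (n : ℕ) (x : V) :
    fderiv ℝ F^[n + 1] x = (fderiv ℝ F (F^[n] x)).comp (fderiv ℝ F^[n] x) := by
  rw [Function.iterate_succ']
  exact fderiv_comp x (hF _) ((hF.iterate n) x)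

lemma inv_iterate (hF : Differentiable ℝ F) (H : IsHyperbolicSplitting F P) (n : ℕ) (x v : V) :
    P (F^[n] x) (fderiv ℝ F^[n] x v) = fderiv ℝ F^[n] x (P x v) := by
  induction n with
  | zero =>
    have : fderiv ℝ F^[0] x = ContinuousLinearMap.id ℝ V := fderiv_id
    rw [this]
    rfl
  | succ n ih =>
    rw [fderiv_iterate_succ hF, Function.iterate_succ_apply', ContinuousLinearMap.comp_apply,
      ContinuousLinearMap.comp_apply, H.invariant, ih]

lemma exists_unit_ker (H : IsHyperbolicSplitting F P) (x : V) : ∃ v, ‖v‖ = 1 ∧ P x v = 0 := by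
  have h1 := H.unstable_line x
  obtain ⟨v, hv0, -⟩ := finrank_eq_one_iff'.1 h1
  have hv0' : (v : V) ≠ 0 := fun h => hv0 (Subtype.ext h)
  have hn : ‖(v : V)‖ ≠ 0 := norm_ne_zero_iff.2 hv0'
  have hPv : P x v = 0 := v.2
  refine ⟨‖(v : V)‖⁻¹ • (v : V), ?_, ?_⟩
  · rw [norm_smul, norm_inv, norm_norm, inv_mul_cancel₀ hn]
  · rw [map_smul, hPv, smul_zero]

lemma line_ker (H : IsHyperbolicSplitting F P) (x v w : V) (hv : P x v = 0) (hw : P x w = 0)
    (hv1 : ‖v‖ = 1) : ∃ c : ℝ, w = c • v := by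
  have h1 := H.unstable_line x
  let v' : (P x).ker := ⟨v, hv⟩
  let w' : (P x).ker := ⟨w, hw⟩
  have hv' : v' ≠ 0 := by
    intro h
    have : v = 0 := congrArg Subtype.val h
    rw [this, norm_zero] at hv1
    exact zero_ne_one hv1
  obtain ⟨c, hc⟩ := exists_smul_eq_of_finrank_eq_one h1 hv' w'
  exact ⟨c, (congrArg Subtype.val hc).symm⟩

lemma norm_restrict (H : IsHyperbolicSplitting F P) (x v : V) (hv : P x v = 0) :
    ‖fderiv ℝ F x v‖ = ‖(fderiv ℝ F x) ∘L (P x).ker.subtypeL‖ * ‖v‖ := by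
  obtain ⟨e, he, hPe⟩ := exists_unit_ker H x
  have key : ∀ w, P x w = 0 → ‖fderiv ℝ F x w‖ = ‖fderiv ℝ F x e‖ * ‖w‖ := by
    intro w hw
    obtain ⟨c, rfl⟩ := line_ker H x e w hPe hw he
    rw [map_smul, norm_smul, norm_smul, he]
    ring
  have h1 : ‖(fderiv ℝ F x) ∘L (P x).ker.subtypeL‖ = ‖fderiv ℝ F x e‖ := by
    apply le_antisymm
    · apply ContinuousLinearMap.opNorm_le_bound _ (norm_nonneg _)
      intro w
      exact (key w w.2).le
    · have h2 := ((fderiv ℝ F x) ∘L (P x).ker.subtypeL).le_opNorm ⟨e, hPe⟩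
      have h3 : ‖(⟨e, hPe⟩ : (P x).ker)‖ = 1 := he
      rw [h3, mul_one] at h2
      exact h2
  rw [h1]
  exact key v hv

lemma norm_restrict_pos (H : IsHyperbolicSplitting F P) (x : V) :
    0 < ‖(fderiv ℝ F x) ∘L (P x).ker.subtypeL‖ := by
  obtain ⟨e, he, hPe⟩ := exists_unit_ker H x
  obtain ⟨C, r, hC, hr, hr1, hh⟩ := H.hyperbolic
  have h1 := (hh 1 x).2 e hPe
  rw [Function.iterate_one, norm_restrict H x e hPe, he, mul_one] at h1
  by_contra hcon
  have h2 : ‖(fderiv ℝ F x) ∘L (P x).ker.subtypeL‖ = 0 :=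
    le_antisymm (not_lt.1 hcon) (ContinuousLinearMap.opNorm_nonneg _)
  rw [h2, mul_zero] at h1
  linarith

lemma logExpansion_def (F : V → V) (P : V → V →L[ℝ] V) (x : V) :
    logExpansion F P x = Real.log ‖(fderiv ℝ F x) ∘L (P x).ker.subtypeL‖ := rfl

lemma exp_logExpansion (H : IsHyperbolicSplitting F P) (x v : V) (hv : P x v = 0) :
    ‖fderiv ℝ F x v‖ = Real.exp (logExpansion F P x) * ‖v‖ := by
  rw [logExpansion_def, Real.exp_log (norm_restrict_pos H x)]
  exact norm_restrict H x v hv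

lemma exp_logExpansion_iterate (hF : Differentiable ℝ F) (H : IsHyperbolicSplitting F P) (n : ℕ)
    (x v : V) (hv : P x v = 0) :
    ‖fderiv ℝ F^[n] x v‖ =
      Real.exp (∑ i ∈ range n, logExpansion F P (F^[i] x)) * ‖v‖ := by
  induction n with
  | zero =>
    have : fderiv ℝ F^[0] x = ContinuousLinearMap.id ℝ V := fderiv_id
    rw [this]
    simp
  | succ n ih =>
    have h1 : P (F^[n] x) (fderiv ℝ F^[n] x v) = 0 := by
      rw [inv_iterate hF H, hv, map_zero]
    rw [fderiv_iterate_succ hF, ContinuousLinearMap.comp_apply, exp_logExpansion H _ _ h1, ih,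
      sum_range_succ, Real.exp_add]
    ring

lemma logExpansion_eq (H : IsHyperbolicSplitting F P) (x : V) :
    logExpansion F P x = Real.log (‖(fderiv ℝ F x) ∘L (ContinuousLinearMap.id ℝ V - P x)‖ /
      ‖ContinuousLinearMap.id ℝ V - P x‖) ∧ 0 < ‖ContinuousLinearMap.id ℝ V - P x‖ ∧
      0 < ‖(fderiv ℝ F x) ∘L (ContinuousLinearMap.id ℝ V - P x)‖ := by
  obtain ⟨e, he, hPe⟩ := exists_unit_ker H x
  set Q := ContinuousLinearMap.id ℝ V - P x with hQ
  have hQv : ∀ v, Q v = v - P x v := fun v => rfl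
  set ρ := ‖(fderiv ℝ F x) ∘L (P x).ker.subtypeL‖ with hρ
  have hρ0 : 0 < ρ := norm_restrict_pos H x
  have hPQ : ∀ v, P x (Q v) = 0 := by
    intro v
    rw [hQv, map_sub, H.idempotent, sub_self]
  have hQ0 : 0 < ‖Q‖ := by
    apply norm_pos_iff.2
    intro h
    have h1 : Q e = e := by rw [hQv, hPe, sub_zero]
    rw [h, zero_apply] at h1
    rw [← h1, norm_zero] at he
    exact zero_ne_one he
  have key : ‖(fderiv ℝ F x) ∘L Q‖ = ρ * ‖Q‖ := by
    apply le_antisymm
    · apply ContinuousLinearMap.opNorm_le_bound _ (by positivity)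
      intro v
      rw [ContinuousLinearMap.comp_apply, norm_restrict H x _ (hPQ v), mul_assoc]
      exact mul_le_mul_of_nonneg_left (Q.le_opNorm v) hρ0.le
    · rw [← le_div_iff₀' hρ0]
      apply ContinuousLinearMap.opNorm_le_bound _ (by positivity)
      intro v
      have h1 := ((fderiv ℝ F x) ∘L Q).le_opNorm v
      rw [ContinuousLinearMap.comp_apply, norm_restrict H x _ (hPQ v)] at h1
      rw [div_mul_eq_mul_div, le_div_iff₀' hρ0]
      exact h1
  refine ⟨?_, hQ0, ?_⟩
  · rw [key, logExpansion_def, mul_div_assoc, div_self hQ0.ne', mul_one]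
  · rw [key]
    positivity

lemma continuous_logExpansion (hF : ContDiff ℝ 1 F) (H : IsHyperbolicSplitting F P) :
    Continuous (logExpansion F P) := by
  have e : logExpansion F P = fun x => Real.log
      (‖(fderiv ℝ F x) ∘L (ContinuousLinearMap.id ℝ V - P x)‖ /
      ‖ContinuousLinearMap.id ℝ V - P x‖) := funext fun x => (logExpansion_eq H x).1
  rw [e]
  have h1 : Continuous fun x => ContinuousLinearMap.id ℝ V - P x :=
    continuous_const.sub H.continuous
  have h2 : Continuous fun x => fderiv ℝ F x := hF.continuous_fderiv one_ne_zero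
  have h3 : Continuous fun x => (fderiv ℝ F x) ∘L (ContinuousLinearMap.id ℝ V - P x) :=
    h2.clm_comp h1
  apply Continuous.log
  · exact h3.norm.div h1.norm fun x => (logExpansion_eq H x).2.1.ne'
  · intro x
    have := (logExpansion_eq H x).2
    exact (div_pos this.2 this.1).ne'

end general

lemma fderiv_periodic {G : Plane → Plane} {M : (Fin 2 → ℤ) → (Fin 2 → ℤ)}
    (h : ∀ x v, G (x + lat v) = G x + lat (M v)) (x : Plane) (v : Fin 2 → ℤ) :
    fderiv ℝ G (x + lat v) = fderiv ℝ G x := by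
  have h1 : (fun y => G (y + lat v)) = fun y => G y + lat (M v) := funext fun y => h y v
  have h2 : fderiv ℝ (fun y => G (y + lat v)) x = fderiv ℝ G (x + lat v) := by
    rw [fderiv_comp_add_right]
  rw [← h2, h1, fderiv_add_const]

lemma iterate_lat {G : Plane → Plane} {M : (Fin 2 → ℤ) → (Fin 2 → ℤ)}
    (h : ∀ x v, G (x + lat v) = G x + lat (M v)) (n : ℕ) (x : Plane) (v : Fin 2 → ℤ) :
    G^[n] (x + lat v) = G^[n] x + lat (M^[n] v) := by
  induction n generalizing x v with
  | zero => rfl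
  | succ n ih =>
    rw [Function.iterate_succ_apply, h, ih, Function.iterate_succ_apply,
      Function.iterate_succ_apply]

lemma contDiff_iterate {G : Plane → Plane} (hG : ContDiff ℝ ∞ G) (n : ℕ) :
    ContDiff ℝ ∞ G^[n] := by
  induction n with
  | zero => exact contDiff_id
  | succ n ih =>
    rw [Function.iterate_succ']
    exact hG.comp ih

/-- the uniform hyperbolic data of a suitable iterate -/
theorem exists_isHyp {L : Matrix (Fin 2) (Fin 2) ℤ} {f : Torus ≃ₜ Torus} {F : Plane → Plane}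
    {P : Plane → Plane →L[ℝ] Plane} (H : IsAreaPreservingAnosov L f F P) :
    ∃ (m : ℕ) (K : ℝ), 0 < m ∧ IsHyp F^[m] (fderiv ℝ F^[m]) P
      (fun x => ∑ i ∈ range m, logExpansion F P (F^[i] x)) K := by
  have hFd : Differentiable ℝ F := H.smooth_lift.1.differentiable (by simp)
  obtain ⟨C, r, hC, hr, hr1, hh⟩ := H.splitting.hyperbolic
  obtain ⟨m, hm0, hm⟩ : ∃ m : ℕ, 0 < m ∧ C * r ^ m ≤ 1 / 8 := by
    have h1 : Tendsto (fun n : ℕ => C * r ^ n) atTop (𝓝 (C * 0)) :=
      (tendsto_pow_atTop_nhds_zero_of_lt_one hr.le hr1).const_mul C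
    rw [mul_zero] at h1
    have h2 := (h1.eventually (gt_mem_nhds (show (0 : ℝ) < 1 / 8 by norm_num))).and
      (eventually_gt_atTop 0)
    obtain ⟨m, hm1, hm2⟩ := h2.exists
    exact ⟨m, hm2, hm1.le⟩
  have hGs : ContDiff ℝ ∞ F^[m] := contDiff_iterate H.smooth_lift.1 m
  have hGd : Differentiable ℝ F^[m] := hGs.differentiable (by simp)
  have hper := iterate_lat H.homotopic m
  have hA : Continuous (fderiv ℝ F^[m]) := hGs.continuous_fderiv (by simp)
  obtain ⟨K1, hK1⟩ := periodic_bounded hA (fderiv_periodic hper)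
  obtain ⟨K2, hK2⟩ := periodic_bounded H.splitting.continuous H.periodic
  have hAs : ContDiff ℝ 1 (fderiv ℝ F^[m]) :=
    hGs.fderiv_right (WithTop.coe_le_coe.2 le_top)
  have hA2 : Continuous (fderiv ℝ (fderiv ℝ F^[m])) := hAs.continuous_fderiv one_ne_zero
  have hA2per : ∀ x v, fderiv ℝ (fderiv ℝ F^[m]) (x + lat v) = fderiv ℝ (fderiv ℝ F^[m]) x := by
    intro x v
    have h1 : (fun y => fderiv ℝ F^[m] (y + lat v)) = fderiv ℝ F^[m] :=
      funext fun y => fderiv_periodic hper y v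
    have h2 : fderiv ℝ (fun y => fderiv ℝ F^[m] (y + lat v)) x =
        fderiv ℝ (fderiv ℝ F^[m]) (x + lat v) := by
      rw [fderiv_comp_add_right]
    rw [← h2, h1]
  obtain ⟨K3, hK3⟩ := periodic_bounded hA2 hA2per
  set K := max 1 (max K1 (max K2 K3)) with hK
  have hKone : 1 ≤ K := le_max_left _ _
  have hKK1 : K1 ≤ K := (le_max_left _ _).trans (le_max_right _ _)
  have hKK2 : K2 ≤ K := ((le_max_left _ _).trans (le_max_right _ _)).trans (le_max_right _ _)
  have hKK3 : K3 ≤ K := ((le_max_right _ _).trans (le_max_right _ _)).trans (le_max_right _ _)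
  have hlip : ∀ x y, ‖fderiv ℝ F^[m] x - fderiv ℝ F^[m] y‖ ≤ K * ‖x - y‖ := by
    intro x y
    exact convex_univ.norm_image_sub_le_of_norm_fderiv_le (𝕜 := ℝ)
      (fun z _ => (hAs.differentiable one_ne_zero) z) (fun z _ => (hK3 z).trans hKK3)
      (Set.mem_univ y) (Set.mem_univ x)
  refine ⟨m, K, hm0, ⟨hKone, hGs.continuous, fun x => (hK1 x).trans hKK1,
    fun x => (hK2 x).trans hKK2, ?_, hlip, ?_, H.splitting.idempotent,
    inv_iterate hFd H.splitting m, ?_, ?_, ?_, exists_unit_ker H.splitting, ?_⟩⟩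
  · intro x ζ
    have h1 := (convex_closedBall x ‖ζ‖).norm_image_sub_le_of_norm_fderiv_le' (𝕜 := ℝ)
      (f := F^[m]) (φ := fderiv ℝ F^[m] x) (C := K * ‖ζ‖) (x := x) (y := x + ζ)
      (fun z _ => hGd z) (fun z hz => by
        refine (hlip z x).trans ?_
        rw [mem_closedBall_iff_norm] at hz
        exact mul_le_mul_of_nonneg_left hz (by linarith))
      (Metric.mem_closedBall_self (norm_nonneg _)) (by simp)
    rw [add_sub_cancel_left] at h1
    calc _ ≤ K * ‖ζ‖ * ‖ζ‖ := h1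
      _ = K * ‖ζ‖ ^ 2 := by ring
  · intro η hη
    exact periodic_uniform H.splitting.continuous H.periodic η hη
  · intro x v hv
    have h1 := (hh m x).1 v ⟨v, hv⟩
    exact h1.trans (mul_le_mul_of_nonneg_right hm (norm_nonneg _))
  · intro x v hv
    have h1 := (hh m x).2 v hv
    have h2 := mul_le_mul_of_nonneg_right hm (norm_nonneg (fderiv ℝ F^[m] x v))
    linarith
  · intro x v w hv hw hv1
    exact line_ker H.splitting x v w hv hw hv1
  · intro x v hv
    exact exp_logExpansion_iterate hFd H.splitting m x v hv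

end Pool.Agent.H576R3.PR
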