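import Pool.Agent.H576R3.PR.Hyp

set_option autoImplicit false

open scoped Topology
open Filter Finset

namespace Pool.Agent.H576R3.PR

variable {V : Type*} [NormedAddCommGroup V] [InnerProductSpace ℝ V] {G : V → V}
    {A P : V → V →L[ℝ] V} {ψ : V → ℝ} {K : ℝ}

lemma IsHyp.push (H : IsHyp G A P ψ K) {r η ε : ℝ} (hr : 0 < r) (hη0 : 0 ≤ η)
    (hη8 : η * K ≤ 1 / 8) (hr8 : 4 * (1 + K) * K * r ≤ 1 / 8) (hε0 : 0 ≤ ε)
    (hε : (1 + K) * ε ≤ r / 8) (c c' : V) (hcc : ‖G c - c'‖ ≤ ε)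
    (hP : ‖P (G c) - P c'‖ ≤ η) (e : V) (he : ‖e‖ = 1) (hPe : P c e = 0) :
    ∃ (e' : V) (m : ℝ), ‖e'‖ = 1 ∧ P c' e' = 0 ∧ 7 ≤ m ∧ ∀ (ζ : V) (L : ℝ),
      ζ - P c ζ = L • e → ‖P c ζ‖ ≤ r → |L| ≤ r →
      ‖P c' (G (c + ζ) - c')‖ ≤ r ∧
      |inner ℝ e' ((G (c + ζ) - c') - P c' (G (c + ζ) - c')) - L * m| ≤ r := by
  have hK := H.one_le
  have hdiff : ∀ v, ‖P (G c) v - P c' v‖ ≤ η * ‖v‖ := by
    intro v
    rw [← sub_apply]
    exact ((P (G c) - P c').le_opNorm v).trans (mul_le_mul_of_nonneg_right hP (norm_nonneg _))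
  have hAn : ∀ v, ‖A c v‖ ≤ K * ‖v‖ := fun v =>
    ((A c).le_opNorm v).trans (mul_le_mul_of_nonneg_right (H.boundA _) (norm_nonneg _))
  have hPn : ∀ v, ‖P c' v‖ ≤ K * ‖v‖ := fun v =>
    ((P c').le_opNorm v).trans (mul_le_mul_of_nonneg_right (H.boundP _) (norm_nonneg _))
  set w := A c e - P c' (A c e) with hw
  have hAe : 8 ≤ ‖A c e‖ := by
    have := H.expan c e hPe
    rw [he] at this
    linarith
  have hPAe : P (G c) (A c e) = 0 := by rw [H.inv, hPe, map_zero]
  have hPc'Ae : ‖P c' (A c e)‖ ≤ 1 / 8 := by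
    have h1 := hdiff (A c e)
    rw [hPAe, zero_sub, norm_neg] at h1
    have h2 := hAn e
    rw [he, mul_one] at h2
    exact h1.trans ((mul_le_mul_of_nonneg_left h2 hη0).trans hη8)
  have hm7 : 7 ≤ ‖w‖ := by
    have := norm_sub_norm_le (A c e) (P c' (A c e))
    rw [← hw] at this
    linarith
  have hm0 : ‖w‖ ≠ 0 := by linarith
  refine ⟨‖w‖⁻¹ • w, ‖w‖, ?_, ?_, hm7, ?_⟩
  · rw [norm_smul, norm_inv, norm_norm, inv_mul_cancel₀ hm0]
  · rw [map_smul, hw, map_sub, H.idem, sub_self, smul_zero]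
  intro ζ L hL hs hLr
  have hζ : ζ = P c ζ + L • e := by rw [← hL]; abel
  have hζn : ‖ζ‖ ≤ 2 * r := by
    rw [hζ]
    refine (norm_add_le _ _).trans ?_
    rw [norm_smul, he, mul_one, Real.norm_eq_abs]
    linarith
  set err := (G (c + ζ) - G c - A c ζ) + (G c - c') with herr
  have herrn : ‖err‖ ≤ 4 * K * r * r + ε := by
    refine (norm_add_le _ _).trans (add_le_add ((H.taylor c ζ).trans ?_) hcc)
    have : ‖ζ‖ ^ 2 ≤ (2 * r) ^ 2 := pow_le_pow_left₀ (norm_nonneg _) hζn 2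
    nlinarith
  have hKerr : (1 + K) * ‖err‖ ≤ r / 4 := by
    have h1 : (1 + K) * ‖err‖ ≤ (1 + K) * (4 * K * r * r + ε) :=
      mul_le_mul_of_nonneg_left herrn (by linarith)
    have h2 : (1 + K) * (4 * K * r * r + ε) = (4 * (1 + K) * K * r) * r + (1 + K) * ε := by ring
    have h3 : (4 * (1 + K) * K * r) * r ≤ 1 / 8 * r := mul_le_mul_of_nonneg_right hr8 hr.le
    linarith
  have hz' : G (c + ζ) - c' = A c ζ + err := by rw [herr]; abel
  have hηr : η * K * r ≤ 1 / 8 * r := mul_le_mul_of_nonneg_right hη8 hr.le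
  rw [hz']
  constructor
  · have e1 : P c' (A c ζ + err) = A c (P c ζ) - (P (G c) (A c ζ) - P c' (A c ζ)) + P c' err := by
      rw [map_add, H.inv]; abel
    rw [e1]
    have h1 := H.contr c (P c ζ) (H.idem c ζ)
    have h2 := hdiff (A c ζ)
    have h3 : η * ‖A c ζ‖ ≤ η * (K * (2 * r)) :=
      mul_le_mul_of_nonneg_left ((hAn ζ).trans (mul_le_mul_of_nonneg_left hζn (by linarith))) hη0
    have h4 := hPn err
    have h5 : K * ‖err‖ ≤ (1 + K) * ‖err‖ :=
      mul_le_mul_of_nonneg_right (by linarith) (norm_nonneg _)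
    have h6 := norm_add_le (A c (P c ζ) - (P (G c) (A c ζ) - P c' (A c ζ))) (P c' err)
    have h7 := norm_sub_le (A c (P c ζ)) (P (G c) (A c ζ) - P c' (A c ζ))
    nlinarith
  · have e1 : A c ζ + err - P c' (A c ζ + err) =
        ((P (G c) (A c (P c ζ)) - P c' (A c (P c ζ))) + (err - P c' err)) + L • w := by
      have e2 : P (G c) (A c (P c ζ)) = A c (P c ζ) := by rw [H.inv, H.idem]
      have e3 : A c ζ = A c (P c ζ) + L • A c e := by
        conv_lhs => rw [hζ]
        rw [map_add, map_smul]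
      rw [e2, hw, smul_sub, map_add, e3, map_add, map_smul]
      abel
    have e4 : inner ℝ (‖w‖⁻¹ • w) (L • w) = L * ‖w‖ := by
      rw [real_inner_smul_left, real_inner_smul_right, real_inner_self_eq_norm_sq]
      field_simp
    rw [e1, inner_add_right, e4, add_sub_cancel_right]
    refine (abs_real_inner_le_norm _ _).trans ?_
    have e5 : ‖‖w‖⁻¹ • w‖ = 1 := by rw [norm_smul, norm_inv, norm_norm, inv_mul_cancel₀ hm0]
    rw [e5, one_mul]
    refine (norm_add_le _ _).trans ?_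
    have h1 := hdiff (A c (P c ζ))
    have h2 : η * ‖A c (P c ζ)‖ ≤ η * (K * r) :=
      mul_le_mul_of_nonneg_left ((hAn _).trans (mul_le_mul_of_nonneg_left hs (by linarith))) hη0
    have h3 := norm_sub_le err (P c' err)
    have h4 := hPn err
    nlinarith

/-- finite pseudo-orbits are shadowed -/
theorem IsHyp.shadow (H : IsHyp G A P ψ K) {r η ε : ℝ} (hr : 0 < r) (hη0 : 0 ≤ η)
    (hη8 : η * K ≤ 1 / 8) (hr8 : 4 * (1 + K) * K * r ≤ 1 / 8) (hε0 : 0 ≤ ε)
    (hε : (1 + K) * ε ≤ r / 8) (hP : ∀ x y, ‖x - y‖ ≤ ε → ‖P x - P y‖ ≤ η)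
    (c : ℕ → V) (n : ℕ) (hc : ∀ i < n, ‖G (c i) - c (i + 1)‖ ≤ ε) :
    ∃ z, ∀ i ≤ n, ‖G^[i] z - c i‖ ≤ 2 * r := by
  obtain ⟨e0, he0, hPe0⟩ := H.exists_unit (c 0)
  have key : ∀ k ≤ n, ∃ (a b : ℝ) (e : V), a ≤ b ∧ ‖e‖ = 1 ∧ P (c k) e = 0 ∧
      inner ℝ e ((G^[k] (c 0 + a • e0) - c k) - P (c k) (G^[k] (c 0 + a • e0) - c k)) = -r ∧
      inner ℝ e ((G^[k] (c 0 + b • e0) - c k) - P (c k) (G^[k] (c 0 + b • e0) - c k)) = r ∧
      ∀ τ ∈ Set.Icc a b, (∀ i ≤ k, ‖G^[i] (c 0 + τ • e0) - c i‖ ≤ 2 * r) ∧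
        ‖P (c k) (G^[k] (c 0 + τ • e0) - c k)‖ ≤ r ∧
        |inner ℝ e ((G^[k] (c 0 + τ • e0) - c k) -
          P (c k) (G^[k] (c 0 + τ • e0) - c k))| ≤ r := by
    intro k
    induction k with
    | zero =>
      intro _
      have h1 : ∀ τ : ℝ, inner ℝ e0 ((G^[0] (c 0 + τ • e0) - c 0) -
          P (c 0) (G^[0] (c 0 + τ • e0) - c 0)) = τ := by
        intro τ
        simp only [Function.iterate_zero, id_eq, add_sub_cancel_left, map_smul, hPe0, smul_zero,
          sub_zero]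
        rw [real_inner_smul_right, real_inner_self_eq_norm_sq, he0]
        ring
      refine ⟨-r, r, e0, by linarith, he0, hPe0, h1 _, h1 _, ?_⟩
      intro τ hτ
      refine ⟨?_, ?_, ?_⟩
      · intro i hi
        obtain rfl : i = 0 := by omega
        simp only [Function.iterate_zero, id_eq, add_sub_cancel_left]
        rw [norm_smul, he0, mul_one, Real.norm_eq_abs]
        have := abs_le.2 hτ
        linarith
      · simp only [Function.iterate_zero, id_eq, add_sub_cancel_left, map_smul, hPe0, smul_zero,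
          norm_zero]
        exact hr.le
      · rw [h1]
        exact abs_le.2 hτ
    | succ k ih =>
      intro hk
      obtain ⟨a, b, e, hab, he, hPe, ha, hb, hτ⟩ := ih (by omega)
      obtain ⟨e', m, he', hPe', hm, hpush⟩ := H.push hr hη0 hη8 hr8 hε0 hε (c k) (c (k + 1))
        (hc k (by omega)) (hP _ _ (hc k (by omega))) e he hPe
      have hline : ∀ ζ : V, ζ - P (c k) ζ = (inner ℝ e (ζ - P (c k) ζ) : ℝ) • e := by
        intro ζ
        obtain ⟨x, hx⟩ := H.line (c k) e (ζ - P (c k) ζ) hPe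
          (by rw [map_sub, H.idem, sub_self]) he
        rw [hx, real_inner_smul_right, real_inner_self_eq_norm_sq, he]
        congr 1
        ring
      have hline' : ∀ ζ : V, ζ - P (c (k + 1)) ζ =
          (inner ℝ e' (ζ - P (c (k + 1)) ζ) : ℝ) • e' := by
        intro ζ
        obtain ⟨x, hx⟩ := H.line (c (k + 1)) e' (ζ - P (c (k + 1)) ζ) hPe'
          (by rw [map_sub, H.idem, sub_self]) he'
        rw [hx, real_inner_smul_right, real_inner_self_eq_norm_sq, he']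
        congr 1
        ring
      have hit : ∀ τ : ℝ, G^[k + 1] (c 0 + τ • e0) =
          G (c k + (G^[k] (c 0 + τ • e0) - c k)) := by
        intro τ
        rw [Function.iterate_succ_apply']
        congr 1
        abel
      have hP1 : ∀ τ ∈ Set.Icc a b,
          ‖P (c (k + 1)) (G^[k + 1] (c 0 + τ • e0) - c (k + 1))‖ ≤ r ∧
          |inner ℝ e' ((G^[k + 1] (c 0 + τ • e0) - c (k + 1)) -
            P (c (k + 1)) (G^[k + 1] (c 0 + τ • e0) - c (k + 1))) -
            (inner ℝ e ((G^[k] (c 0 + τ • e0) - c k) -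
              P (c k) (G^[k] (c 0 + τ • e0) - c k))) * m| ≤ r := by
        intro τ hτ'
        rw [hit τ]
        exact hpush (G^[k] (c 0 + τ • e0) - c k) _ (hline _) (hτ τ hτ').2.1 (hτ τ hτ').2.2
      set φ : ℝ → ℝ := fun τ => inner ℝ e' ((G^[k + 1] (c 0 + τ • e0) - c (k + 1)) -
            P (c (k + 1)) (G^[k + 1] (c 0 + τ • e0) - c (k + 1))) with hφ
      have hφc : Continuous φ := by
        have h1 : Continuous (fun τ : ℝ => G^[k + 1] (c 0 + τ • e0)) :=
          (H.cont.iterate (k + 1)).comp (by fun_prop)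
        have h2 : Continuous (fun τ : ℝ => (G^[k + 1] (c 0 + τ • e0) - c (k + 1)) -
            P (c (k + 1)) (G^[k + 1] (c 0 + τ • e0) - c (k + 1))) :=
          (h1.sub continuous_const).sub ((P (c (k + 1))).continuous.comp (h1.sub continuous_const))
        exact continuous_const.inner h2
      have hφa : φ a ≤ -r := by
        have := abs_le.1 (hP1 a ⟨le_rfl, hab⟩).2
        rw [ha] at this
        have h2 := this.2
        change φ a - _ ≤ r at h2
        nlinarith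
      have hφb : r ≤ φ b := by
        have := abs_le.1 (hP1 b ⟨hab, le_rfl⟩).2
        rw [hb] at this
        have h2 := this.1
        change _ ≤ φ b - _ at h2
        nlinarith
      obtain ⟨a', b', haa', hab', hbb', hφa', hφb', hφτ⟩ := exists_crossing φ hφc hab hr hφa hφb
      refine ⟨a', b', e', hab', he', hPe', hφa', hφb', ?_⟩
      intro τ hτ'
      have hτab : τ ∈ Set.Icc a b := ⟨haa'.trans hτ'.1, hτ'.2.trans hbb'⟩
      refine ⟨?_, (hP1 τ hτab).1, hφτ τ hτ'⟩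
      intro i hi
      rcases Nat.lt_or_ge i (k + 1) with h | h
      · exact (hτ τ hτab).1 i (by omega)
      · obtain rfl : i = k + 1 := by omega
        have h1 := (hP1 τ hτab).1
        have h2 := hφτ τ hτ'
        have h3 := hline' (G^[k + 1] (c 0 + τ • e0) - c (k + 1))
        have h4 : ‖(G^[k + 1] (c 0 + τ • e0) - c (k + 1)) -
            P (c (k + 1)) (G^[k + 1] (c 0 + τ • e0) - c (k + 1))‖ ≤ r := by
          rw [h3, norm_smul, he', mul_one, Real.norm_eq_abs]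
          exact h2
        calc ‖G^[k + 1] (c 0 + τ • e0) - c (k + 1)‖ =
            ‖P (c (k + 1)) (G^[k + 1] (c 0 + τ • e0) - c (k + 1)) +
              ((G^[k + 1] (c 0 + τ • e0) - c (k + 1)) -
            P (c (k + 1)) (G^[k + 1] (c 0 + τ • e0) - c (k + 1)))‖ := by congr 1; abel
          _ ≤ _ := (norm_add_le _ _).trans (by linarith)
  obtain ⟨a, b, e, hab, -, -, -, -, hτ⟩ := key n le_rfl
  exact ⟨c 0 + a • e0, (hτ a ⟨le_rfl, hab⟩).1⟩

end Pool.Agent.H576R3.PR
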